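import Pool.Agent.helper643_RW.Uni

set_option autoImplicit false

/-!
The two applications: arbitrary colourings of numbers and computable colourings of pairs.
-/

namespace Pool.Agent.helper643_RW

open Pool.Agent.Helper926 Pool.Agent.Helper926.RE

section

variable {S : ℕ → List Block} {B : ℕ → Block}

theorem unb_inf {P : ℕ → Prop} (h : ∀ N, ∃ y, N ≤ y ∧ P y) : {n | P n}.Infinite := by
  apply Set.infinite_of_not_bddAbove
  rintro ⟨M, hM⟩
  obtain ⟨y, hy, hP⟩ := h (M + 1)
  have := hM hP
  omega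

theorem Con.rt1 (h : Con S B) (f : ℕ → Bool) (r : ℕ) (V : ℕ → List Bool × ℕ → Prop)
    (hV : ∀ l < r, REPred (V l)) : ∃ (c : Bool) (H : ℕ → Bool),
    ({n | H n = true}.Infinite ∧ ∀ n, H n = true → f n = c) ∧ ∀ l < r, ¬ Sol S c (Op (V l) H) := by
  classical
  refine h.uni (fun _ => True) (RE.const True) (fun _ => trivial) f (fun N y => N ≤ y)
    (fun N => cp_le (by fun_prop) (by fun_prop)) (fun N M y h1 h2 => h1.trans h2)
    (fun c H => {n | H n = true}.Infinite ∧ ∀ n, H n = true → f n = c) ?_ ?_ r V hV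
  · intro c τ Y _ hτ hY hinf
    refine ⟨fun i => if i < τ.length then gb τ i else decide (Y i), ⟨?_, ?_⟩, ?_, ?_,
      fun _ _ => trivial⟩
    · apply unb_inf
      intro N
      obtain ⟨y, hy, hYy⟩ := hinf (max N τ.length)
      refine ⟨y, by omega, ?_⟩
      have : ¬ y < τ.length := by omega
      simp [this, hYy]
    · intro n hn
      by_cases hl : n < τ.length
      · simp only [hl, if_true] at hn
        exact hτ n hl hn
      · simp only [hl, if_false, decide_eq_true_eq] at hn
        exact hY n hn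
    · intro i hi
      simp [hi]
    · intro i hi hH
      have : ¬ i < τ.length := by omega
      simpa [this] using hH
  · intro N hN
    have hc : ∃ c, ∀ M, ∃ y, M ≤ y ∧ f y = c := by
      by_contra hno
      push Not at hno
      obtain ⟨M0, h0⟩ := hno false
      obtain ⟨M1, h1⟩ := hno true
      have a0 := h0 (max M0 M1) (le_max_left _ _)
      have a1 := h1 (max M0 M1) (le_max_right _ _)
      revert a0 a1
      cases f (max M0 M1) <;> simp
    obtain ⟨c, hc⟩ := hc
    refine ⟨c, fun n => decide (N ≤ n) && (f n == c), ?_, ?_, ?_⟩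
    · apply computable_of_graph
      have e1 : REPred fun x : ℕ × Bool => (x.2 = true ∧ (N ≤ x.1 ∧ f x.1 = c)) ∨
          (x.2 = false ∧ (x.1 < N ∨ (N ≤ x.1 ∧ f x.1 = !c))) := by
        refine RE.or (RE.and (RE.eq (by fun_prop) (by fun_prop))
          (RE.comp (f := fun x : ℕ × Bool => (x.1, c)) hN (by fun_prop)))
          (RE.and (RE.eq (by fun_prop) (by fun_prop)) (RE.or (RE.lt (by fun_prop) (by fun_prop))
            (RE.comp (f := fun x : ℕ × Bool => (x.1, !c)) hN (by fun_prop))))
      refine e1.of_eq fun x => ?_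
      obtain ⟨n, v⟩ := x
      simp only
      by_cases hn : N ≤ n
      · have hn' : ¬ n < N := by omega
        cases v <;> cases hf : f n <;> cases c <;> simp [hn, hn']
      · have hn' : n < N := by omega
        cases v <;> simp [hn, hn']
    · apply unb_inf
      intro M
      obtain ⟨y, hy, hfy⟩ := hc (max M N)
      refine ⟨y, by omega, ?_⟩
      have : N ≤ y := by omega
      simp [this, hfy]
    · intro n hn
      simp only [Bool.and_eq_true, beq_iff_eq] at hn
      exact hn.2

/-- reservoirs of a colouring of pairs with given limit colours -/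
def Zr (f : ℕ → Bool) (C : ℕ → ℕ → Bool) (N y : ℕ) : Prop := N ≤ y ∧ ∀ i < N, C i y = f i

/-- homogeneous finite sets -/
def Hf (C : ℕ → ℕ → Bool) (x : Bool × List Bool) : Prop :=
  ∀ i < x.2.length, ∀ i' < x.2.length, i < i' → gb x.2 i = true → gb x.2 i' = true →
    C i i' = x.1

theorem cp_Hf {C : ℕ → ℕ → Bool} (hC : Computable₂ C) : ComputablePred (Hf C) := by
  have hC' : Computable fun x : ℕ × ℕ => C x.1 x.2 := hC
  unfold Hf
  refine cp_all_lt (p := fun (x : Bool × List Bool) i => ∀ i' < x.2.length, i < i' →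
    gb x.2 i = true → gb x.2 i' = true → C i i' = x.1) ?_ (by fun_prop)
  refine cp_all_lt (p := fun (y : (Bool × List Bool) × ℕ) i' => y.2 < i' →
    gb y.1.2 y.2 = true → gb y.1.2 i' = true → C y.2 i' = y.1.1) ?_ (by fun_prop)
  have h1 : Computable fun z : ((Bool × List Bool) × ℕ) × ℕ => C z.1.2 z.2 :=
    hC'.comp (g := fun z : ((Bool × List Bool) × ℕ) × ℕ => (z.1.2, z.2)) (by fun_prop)
  exact cp_imp (cp_lt (by fun_prop) (by fun_prop)) (cp_imp (cp_eq (by fun_prop) (by fun_prop))
    (cp_imp (cp_eq (by fun_prop) (by fun_prop)) (cp_eq h1 (by fun_prop))))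

theorem exists_lim (C : ℕ → ℕ → Bool) : ∃ f : ℕ → Bool, ∀ N M, ∃ y, M ≤ y ∧ Zr f C N y := by
  obtain ⟨f, hf⟩ := konig (fun z => ∀ M, ∃ y, M ≤ y ∧ ∀ i < z.length, C i y = gb z i) (by
    intro z w hz M
    obtain ⟨y, hy, h⟩ := hz M
    refine ⟨y, hy, fun i hi => ?_⟩
    rw [h i (by rw [List.length_append]; omega), gb_app hi]) (by
    intro n
    induction n with
    | zero => exact ⟨[], by simp, fun M => ⟨M, le_rfl, by simp⟩⟩
    | succ n ih =>
      obtain ⟨z, hz, hi⟩ := ih
      by_contra hno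
      have key : ∀ b : Bool, ∃ M, ∀ y, M ≤ y →
          ¬ ∀ i < (z ++ [b]).length, C i y = gb (z ++ [b]) i := by
        intro b
        by_contra hb
        apply hno
        refine ⟨z ++ [b], by rw [List.length_append, List.length_singleton]; omega, fun M => ?_⟩
        by_contra hM
        exact hb ⟨M, fun y hy hyy => hM ⟨y, hy, hyy⟩⟩
      obtain ⟨M0, h0⟩ := key false
      obtain ⟨M1, h1⟩ := key true
      obtain ⟨y, hy, h⟩ := hi (max M0 M1)
      have hb : ∀ b, C z.length y = b → ∀ i < (z ++ [b]).length, C i y = gb (z ++ [b]) i := by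
        intro b hb i hil
        rw [List.length_append, List.length_singleton] at hil
        by_cases hi2 : i < z.length
        · rw [gb_app hi2]; exact h i hi2
        · have : i = z.length := by omega
          subst this
          rw [hb]
          unfold gb
          rw [List.getD_eq_getElem?_getD]
          simp
      cases hcy : C z.length y with
      | false => exact h0 y (by omega) (hb false hcy)
      | true => exact h1 y (by omega) (hb true hcy))
  refine ⟨f, fun N M => ?_⟩
  obtain ⟨y, hy, h⟩ := hf N (max M N)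
  refine ⟨y, by omega, by omega, fun i hi => ?_⟩
  rw [rs_length] at h
  rw [h i hi, gb_rs hi]

theorem rt2_ext (C : ℕ → ℕ → Bool) (f : ℕ → Bool) (c : Bool) (τ : List Bool) (Y : ℕ → Prop)
    (hadm : Hf C (c, τ)) (hτ : ∀ i < τ.length, gb τ i = true → f i = c)
    (hY : ∀ y, Y y → f y = c) (hinf : ∀ N, ∃ y, Zr f C N y ∧ Y y) :
    ∃ H : ℕ → Bool, ({n | H n = true}.Infinite ∧
      ∀ x y, H x = true → H y = true → x < y → C x y = c) ∧ (∀ i < τ.length, H i = gb τ i) ∧
      (∀ i, τ.length ≤ i → H i = true → Y i) ∧ ∀ k, τ.length ≤ k → Hf C (c, rs H k) := by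
  classical
  choose nx hn1 hn2 using hinf
  obtain ⟨sq, sq0, sqs⟩ : ∃ sq : ℕ → ℕ, sq 0 = nx τ.length ∧ ∀ k, sq (k + 1) = nx (sq k + 1) :=
    ⟨fun k => Nat.rec (nx τ.length) (fun _ m => nx (m + 1)) k, rfl, fun k => rfl⟩
  have hlt : ∀ k, sq k < sq (k + 1) := by
    intro k
    rw [sqs]
    have := (hn1 (sq k + 1)).1
    omega
  have hmono : StrictMono sq := strictMono_nat_of_lt_succ hlt
  have hge : ∀ k, τ.length ≤ sq k := by
    intro k
    have h1 : τ.length ≤ sq 0 := by rw [sq0]; exact (hn1 τ.length).1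
    exact h1.trans (hmono.monotone (Nat.zero_le k))
  have hsY : ∀ k, Y (sq k) := by
    intro k
    cases k with
    | zero => rw [sq0]; exact hn2 _
    | succ k => rw [sqs]; exact hn2 _
  set H : ℕ → Bool := fun i => if i < τ.length then gb τ i else decide (∃ k, sq k = i) with hH
  have H1 : ∀ i < τ.length, H i = gb τ i := by
    intro i hi
    simp [hH, hi]
  have H2 : ∀ i, τ.length ≤ i → H i = true → ∃ k, sq k = i := by
    intro i hi h
    have : ¬ i < τ.length := by omega
    simpa [hH, this] using h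
  have hhom : ∀ x y, H x = true → H y = true → x < y → C x y = c := by
    intro x y hx hy hxy
    by_cases hyl : y < τ.length
    · rw [H1 _ hyl] at hy
      rw [H1 _ (by omega)] at hx
      exact hadm x (by simp only; omega) y hyl hxy hx hy
    · obtain ⟨k, rfl⟩ := H2 y (by omega) hy
      have hfx : f x = c := by
        by_cases hxl : x < τ.length
        · rw [H1 _ hxl] at hx
          exact hτ x hxl hx
        · obtain ⟨k', rfl⟩ := H2 x (by omega) hx
          exact hY _ (hsY k')
      rw [← hfx]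
      cases k with
      | zero =>
        rw [sq0]
        refine (hn1 τ.length).2 x ?_
        by_contra hxl
        obtain ⟨k', rfl⟩ := H2 x (by omega) hx
        have := hmono.lt_iff_lt.1 hxy
        omega
      | succ k =>
        rw [sqs]
        refine (hn1 (sq k + 1)).2 x ?_
        by_cases hxl : x < τ.length
        · have := hge k
          omega
        · obtain ⟨k', rfl⟩ := H2 x (by omega) hx
          have h2 := hmono.lt_iff_lt.1 hxy
          have := hmono.monotone (show k' ≤ k by omega)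
          omega
  refine ⟨H, ⟨?_, hhom⟩, H1, ?_, ?_⟩
  · apply unb_inf
    intro N
    refine ⟨sq N, hmono.le_apply, ?_⟩
    have : ¬ sq N < τ.length := by have := hge N; omega
    simp [hH, this]
  · intro i hi h
    obtain ⟨k, rfl⟩ := H2 i hi h
    exact hsY k
  · intro k _ i hi i' hi' hii h1 h2
    simp only [rs_length] at hi hi' h1 h2
    rw [gb_rs hi] at h1
    rw [gb_rs hi'] at h2
    exact hhom i i' h1 h2 hii

theorem rt2_exc (C : ℕ → ℕ → Bool) (hC : Computable₂ C) (f : ℕ → Bool)
    (hf : ∀ N M, ∃ y, M ≤ y ∧ Zr f C N y) (hZ : ∀ N, ComputablePred (Zr f C N)) (N : ℕ)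
    (hN : REPred fun x : ℕ × Bool => Zr f C N x.1 ∧ f x.1 = x.2) :
    ∃ (c : Bool) (H : ℕ → Bool), Computable H ∧ {n | H n = true}.Infinite ∧
      ∀ x y, H x = true → H y = true → x < y → C x y = c := by
  classical
  have hC' : Computable fun x : ℕ × ℕ => C x.1 x.2 := hC
  have hZd : ∀ N M y, N ≤ M → Zr f C M y → Zr f C N y := fun N M y h1 h2 =>
    ⟨h1.trans h2.1, fun i hi => h2.2 i (by omega)⟩
  have hc : ∃ c, ∀ M, ∃ y, Zr f C M y ∧ f y = c := by
    by_contra hno
    push Not at hno
    obtain ⟨M0, h0⟩ := hno false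
    obtain ⟨M1, h1⟩ := hno true
    obtain ⟨y, -, hy⟩ := hf (max M0 M1) 0
    have a0 := h0 y (hZd _ _ _ (le_max_left _ _) hy)
    have a1 := h1 y (hZd _ _ _ (le_max_right _ _) hy)
    revert a0 a1
    cases f y <;> simp
  obtain ⟨c, hc⟩ := hc
  have hW : ComputablePred fun y => Zr f C N y ∧ f y = c := by
    refine cp_of_re (RE.comp (f := fun y : ℕ => (y, c)) hN (by fun_prop)) ?_
    have h1 : REPred fun y => ¬ Zr f C N y ∨ (Zr f C N y ∧ f y = !c) :=
      RE.or (of_comput (cp_not (hZ N))) (RE.comp (f := fun y : ℕ => (y, !c)) hN (by fun_prop))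
    refine h1.of_eq fun y => ?_
    by_cases hz : Zr f C N y
    · cases f y <;> cases c <;> simp [hz]
    · simp [hz]
  have hrel : ComputablePred fun p : ℕ × List ℕ × ℕ =>
      (∀ i ∈ p.2.1, Zr f C N i ∧ f i = c) →
        (Zr f C N p.2.2 ∧ f p.2.2 = c) ∧ ∀ i ∈ p.2.1, i < p.2.2 ∧ C i p.2.2 = c := by
    refine cp_imp ?_ (cp_and (cp_comp hW (by fun_prop)) ?_)
    · exact cp_all_mem (p := fun (_ : ℕ × List ℕ × ℕ) i => Zr f C N i ∧ f i = c)
        (cp_comp hW Computable.snd) (by fun_prop)
    · refine cp_all_mem (p := fun (p : ℕ × List ℕ × ℕ) i => i < p.2.2 ∧ C i p.2.2 = c) ?_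
        (by fun_prop)
      have h1 : Computable fun x : (ℕ × List ℕ × ℕ) × ℕ => C x.2 x.1.2.2 :=
        hC'.comp (g := fun x : (ℕ × List ℕ × ℕ) × ℕ => (x.2, x.1.2.2)) (by fun_prop)
      exact cp_and (cp_lt (by fun_prop) (by fun_prop)) (cp_eq h1 (by fun_prop))
  obtain ⟨F, hF, hr⟩ := strong_rec_sel (r := fun _ l y => (∀ i ∈ l, Zr f C N i ∧ f i = c) →
      (Zr f C N y ∧ f y = c) ∧ ∀ i ∈ l, i < y ∧ C i y = c) (of_comput hrel) (by
    intro _ l
    by_cases hl : ∀ i ∈ l, Zr f C N i ∧ f i = c
    · obtain ⟨M, hM⟩ : ∃ M, ∀ i ∈ l, i < M := by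
        refine ⟨l.sum + 1, fun i hi => ?_⟩
        have := List.le_sum_of_mem hi
        omega
      obtain ⟨y, hy, hfy⟩ := hc (max M N)
      refine ⟨y, fun _ => ⟨⟨hZd _ _ _ (le_max_right _ _) hy, hfy⟩, fun i hi => ?_⟩⟩
      have h1 := hM i hi
      have h2 := hy.1
      refine ⟨by omega, ?_⟩
      rw [hy.2 i (by omega)]
      exact (hl i hi).2
    · exact ⟨0, fun hh => absurd hh hl⟩)
  have hgood : ∀ n, (Zr f C N (F n) ∧ f (F n) = c) ∧ ∀ m < n, F m < F n ∧ C (F m) (F n) = c := by
    intro n
    induction n using Nat.strong_induction_on with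
    | _ n ih =>
      have h1 := hr n (by
        intro i hi
        rw [List.mem_map] at hi
        obtain ⟨m, hm, rfl⟩ := hi
        exact (ih m (List.mem_range.1 hm)).1)
      refine ⟨h1.1, fun m hm => h1.2 (F m) ?_⟩
      rw [List.mem_map]
      exact ⟨m, List.mem_range.2 hm, rfl⟩
  have hmono : StrictMono F := fun a b hab => ((hgood b).2 a hab).1
  have hdec : ComputablePred fun n : ℕ => ∃ k < n + 1, F k = n := by
    refine cp_ex_lt (p := fun n k => F k = n) ?_ (by fun_prop)
    exact cp_eq (hF.comp Computable.snd) (by fun_prop)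
  refine ⟨c, fun n => decide (∃ k < n + 1, F k = n), cdecide hdec, ?_, ?_⟩
  · apply unb_inf
    intro M
    refine ⟨F M, hmono.le_apply, ?_⟩
    rw [decide_eq_true_eq]
    exact ⟨M, Nat.lt_succ_of_le hmono.le_apply, rfl⟩
  · intro x y hx hy hxy
    rw [decide_eq_true_eq] at hx hy
    obtain ⟨k, _, rfl⟩ := hx
    obtain ⟨k', _, rfl⟩ := hy
    exact ((hgood k').2 k (hmono.lt_iff_lt.1 hxy)).2

theorem Con.rt2 (h : Con S B) (C : ℕ → ℕ → Bool) (hC : Computable₂ C) (r : ℕ)
    (V : ℕ → List Bool × ℕ → Prop) (hV : ∀ l < r, REPred (V l)) : ∃ (c : Bool) (H : ℕ → Bool),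
    ({n | H n = true}.Infinite ∧ ∀ x y, H x = true → H y = true → x < y → C x y = c) ∧
      ∀ l < r, ¬ Sol S c (Op (V l) H) := by
  have hC' : Computable fun x : ℕ × ℕ => C x.1 x.2 := hC
  obtain ⟨f, hf⟩ := exists_lim C
  have hZ : ∀ N, ComputablePred (Zr f C N) := by
    intro N
    have h1 : ∀ M, ComputablePred fun y => ∀ i < M, C i y = f i := by
      intro M
      induction M with
      | zero => exact (cp_const True).of_eq fun y => by simp
      | succ M ih =>
        have h2 : Computable fun y : ℕ => C M y :=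
          hC'.comp (g := fun y : ℕ => (M, y)) (by fun_prop)
        refine (cp_and ih (cp_eq h2 (Computable.const (f M)))).of_eq fun y => ?_
        constructor
        · rintro ⟨a, b⟩ i hi
          by_cases hiM : i = M
          · rw [hiM]; exact b
          · exact a i (by omega)
        · intro a
          exact ⟨fun i hi => a i (by omega), a M (by omega)⟩
    exact cp_and (cp_le (by fun_prop) (by fun_prop)) (h1 N)
  refine h.uni (Hf C) (of_comput (cp_Hf hC)) (fun c i hi => by simp at hi) f (Zr f C) hZ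
    (fun N M y h1 h2 => ⟨h1.trans h2.1, fun i hi => h2.2 i (by omega)⟩)
    (fun c H => {n | H n = true}.Infinite ∧ ∀ x y, H x = true → H y = true → x < y → C x y = c)
    ?_ ?_ r V hV
  · intro c τ Y h1 h2 h3 h4
    exact rt2_ext C f c τ Y h1 h2 h3 h4
  · intro N hN
    obtain ⟨c, H, a1, a2, a3⟩ := rt2_exc C hC f hf hZ N hN
    exact ⟨c, H, a1, a2, a3⟩

end

end Pool.Agent.helper643_RW
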