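import Pool.Agent.helper643_RW.Path

set_option autoImplicit false

/-!
The class of all tuples consisting of two paths and four saturated colourings.
-/

namespace Pool.Agent.helper643_RW

open Pool.Agent.Helper926 Pool.Agent.Helper926.RE

/-- place of the path number `c` -/
def xi (c : Bool) : ℕ := bif c then 1 else 0
/-- place of the colouring number `α` -/
def gi (α : Bool × Bool) : ℕ := (bif α.1 then 3 else 2) + (bif α.2 then 2 else 0)
/-- component of a sequence -/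
def cm (P : ℕ → Bool) (i n : ℕ) : Bool := P (6 * n + i)

theorem xi_lt (c : Bool) : xi c < 6 := by cases c <;> decide
theorem gi_lt (α : Bool × Bool) : gi α < 6 := by
  obtain ⟨a, b⟩ := α
  cases a <;> cases b <;> decide

/-- a violated link is seen -/
def O1 (S : ℕ → List Block) (z : List Bool) : Prop :=
  ∃ q : ℕ × Bool × ℕ × ℕ × Bool, LkS (S q.1) q.2.1 q.2.2.1 q.2.2.2.1 q.2.2.2.2 ∧
    6 * q.2.2.1 + 6 ≤ z.length ∧ 6 * q.2.2.2.1 + 6 ≤ z.length ∧
    (gb z (6 * q.2.2.1 + xi q.2.1) ^^ gb z (6 * q.2.2.2.1 + xi q.2.1)) ≠ q.2.2.2.2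

/-- the colours of the block are not right -/
def O2 (b : Block) (z : List Bool) : Prop :=
  ∃ q : Bool × ℕ, q.2 < b.2.1.length ∧ 6 * (b.1 + q.2) + 6 ≤ z.length ∧
    gb z (6 * (b.1 + q.2) + xi q.1) ≠ col q.1 (gp b.2.1 q.2)

/-- a colouring is refuted -/
def O3 (j : ℕ) (z : List Bool) : Prop :=
  ∃ q : (Bool × Bool) × ℕ × ℕ, 6 * q.2.1 + 6 ≤ z.length ∧
    wst (ℕ × Bool) (gI j) q.2.2 (q.2.1, !gb z (6 * q.2.1 + gi q.1)) = true

/-- a hit is seen -/
def O4 (b : Block) (j : ℕ) (ν : Node) (z : List Bool) : Prop :=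
  ∃ q : (Bool × Bool) × Bool × List Bool × ℕ × ℕ × ℕ,
    6 * q.2.2.1.length ≤ z.length ∧ 6 * q.2.2.2.2.1 + 6 ≤ z.length ∧
    hd q.2.1 ν = q.2.2.1.take (hd q.2.1 ν).length ∧
    (∀ i < q.2.2.1.length, (hd q.2.1 ν).length ≤ i → gb q.2.2.1 i = true →
      gb z (6 * i + gi q.1) = q.2.1) ∧
    wst (Bool × List Bool) (aI j) q.2.2.2.2.2 (q.2.1, q.2.2.1) = true ∧
    b.1 ≤ q.2.2.2.2.1 ∧ Vs q.2.2.2.2.2 (eI j) q.2.2.2.1 q.2.2.1 q.2.2.2.2.1 ∧
    (q.2.1, q.2.2.2.1, (gb z (6 * q.2.2.2.2.1 + xi q.2.1) ^^ (col q.2.1 q.1 &&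
      decide (b.1 + b.2.1.length ≤ q.2.2.2.2.1)))) ∈ ν.2.2

/-- the string is outside the class -/
def Out (S : ℕ → List Block) (b : Block) (j : ℕ) (ν : Node) (z : List Bool) : Prop :=
  (O1 S z ∨ O2 b z) ∨ (O3 j z ∨ O4 b j ν z)

/-- the class -/
def InC (S : ℕ → List Block) (b : Block) (j : ℕ) (ν : Node) (P : ℕ → Bool) : Prop :=
  ∀ k, ¬ Out S b j ν (rs P k)

@[fun_prop] theorem c_xi {α : Type} [Primcodable α] {c : α → Bool} (hc : Computable c) :
    Computable fun x => xi (c x) := by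
  unfold xi; fun_prop

@[fun_prop] theorem c_gi {α : Type} [Primcodable α] {c : α → Bool × Bool} (hc : Computable c) :
    Computable fun x => gi (c x) := by
  unfold gi; fun_prop

theorem cp_LkS {S : ℕ → List Block} (hS : Computable S) {α : Type} [Primcodable α]
    {s n n' : α → ℕ} {c v : α → Bool} (hs : Computable s) (hn : Computable n)
    (hn' : Computable n') (hc : Computable c) (hv : Computable v) :
    ComputablePred fun x => LkS (S (s x)) (c x) (n x) (n' x) (v x) := by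
  have hS' : Computable fun x : α => S (s x) := hS.comp hs
  have h1 : ComputablePred fun x : α × Block => ∃ u < x.2.2.1.length, ∃ u' < x.2.2.1.length,
      n x.1 = x.2.1 + u ∧ n' x.1 = x.2.1 + u' ∧
      (col (c x.1) (gp x.2.2.1 u) ^^ col (c x.1) (gp x.2.2.1 u')) = v x.1 := by
    refine cp_ex_lt (p := fun (x : α × Block) u => ∃ u' < x.2.2.1.length,
      n x.1 = x.2.1 + u ∧ n' x.1 = x.2.1 + u' ∧
      (col (c x.1) (gp x.2.2.1 u) ^^ col (c x.1) (gp x.2.2.1 u')) = v x.1) ?_ (by fun_prop)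
    refine cp_ex_lt (p := fun (y : (α × Block) × ℕ) u' =>
      n y.1.1 = y.1.2.1 + y.2 ∧ n' y.1.1 = y.1.2.1 + u' ∧
      (col (c y.1.1) (gp y.1.2.2.1 y.2) ^^ col (c y.1.1) (gp y.1.2.2.1 u')) = v y.1.1) ?_
      (by fun_prop)
    exact cp_and (cp_eq (by fun_prop) (by fun_prop)) (cp_and (cp_eq (by fun_prop) (by fun_prop))
      (cp_eq (by fun_prop) (by fun_prop)))
  have h2 := cp_ex_mem (p := fun (x : α) (b : Block) => ∃ u < b.2.1.length,
      ∃ u' < b.2.1.length, n x = b.1 + u ∧ n' x = b.1 + u' ∧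
      (col (c x) (gp b.2.1 u) ^^ col (c x) (gp b.2.1 u')) = v x) h1 hS'
  refine h2.of_eq fun x => ?_
  unfold LkS Lk
  constructor
  · rintro ⟨b, hb, u, hu, u', hu', a1, a2, a3⟩
    exact ⟨b, hb, u, u', hu, hu', a1, a2, a3⟩
  · rintro ⟨b, hb, u, u', hu, hu', a1, a2, a3⟩
    exact ⟨b, hb, u, hu, u', hu', a1, a2, a3⟩

theorem re_O1 {S : ℕ → List Block} (hS : Computable S) : REPred (O1 S) := by
  unfold O1
  refine RE.ex (p := fun (z : List Bool) (q : ℕ × Bool × ℕ × ℕ × Bool) =>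
    LkS (S q.1) q.2.1 q.2.2.1 q.2.2.2.1 q.2.2.2.2 ∧
    6 * q.2.2.1 + 6 ≤ z.length ∧ 6 * q.2.2.2.1 + 6 ≤ z.length ∧
    (gb z (6 * q.2.2.1 + xi q.2.1) ^^ gb z (6 * q.2.2.2.1 + xi q.2.1)) ≠ q.2.2.2.2) ?_
  refine of_comput ?_
  exact cp_and (cp_LkS hS (by fun_prop) (by fun_prop) (by fun_prop) (by fun_prop) (by fun_prop))
    (cp_and (cp_le (by fun_prop) (by fun_prop)) (cp_and (cp_le (by fun_prop) (by fun_prop))
      (cp_not (cp_eq (by fun_prop) (by fun_prop)))))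

theorem re_O2 (b : Block) : REPred (O2 b) := by
  unfold O2
  refine RE.ex (p := fun (z : List Bool) (q : Bool × ℕ) =>
    q.2 < b.2.1.length ∧ 6 * (b.1 + q.2) + 6 ≤ z.length ∧
    gb z (6 * (b.1 + q.2) + xi q.1) ≠ col q.1 (gp b.2.1 q.2)) ?_
  refine of_comput ?_
  exact cp_and (cp_lt (by fun_prop) (by fun_prop)) (cp_and (cp_le (by fun_prop) (by fun_prop))
    (cp_not (cp_eq (by fun_prop) (by fun_prop))))

theorem re_O3 (j : ℕ) : REPred (O3 j) := by
  unfold O3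
  refine RE.ex (p := fun (z : List Bool) (q : (Bool × Bool) × ℕ × ℕ) =>
    6 * q.2.1 + 6 ≤ z.length ∧
    wst (ℕ × Bool) (gI j) q.2.2 (q.2.1, !gb z (6 * q.2.1 + gi q.1)) = true) ?_
  refine of_comput ?_
  exact cp_and (cp_le (by fun_prop) (by fun_prop)) (cp_wst (by fun_prop) (by fun_prop)
    (by fun_prop))

theorem re_O4 (b : Block) (j : ℕ) (ν : Node) : REPred (O4 b j ν) := by
  unfold O4
  refine RE.ex (p := fun (z : List Bool) (q : (Bool × Bool) × Bool × List Bool × ℕ × ℕ × ℕ) =>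
    6 * q.2.2.1.length ≤ z.length ∧ 6 * q.2.2.2.2.1 + 6 ≤ z.length ∧
    hd q.2.1 ν = q.2.2.1.take (hd q.2.1 ν).length ∧
    (∀ i < q.2.2.1.length, (hd q.2.1 ν).length ≤ i → gb q.2.2.1 i = true →
      gb z (6 * i + gi q.1) = q.2.1) ∧
    wst (Bool × List Bool) (aI j) q.2.2.2.2.2 (q.2.1, q.2.2.1) = true ∧
    b.1 ≤ q.2.2.2.2.1 ∧ Vs q.2.2.2.2.2 (eI j) q.2.2.2.1 q.2.2.1 q.2.2.2.2.1 ∧
    (q.2.1, q.2.2.2.1, (gb z (6 * q.2.2.2.2.1 + xi q.2.1) ^^ (col q.2.1 q.1 &&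
      decide (b.1 + b.2.1.length ≤ q.2.2.2.2.1)))) ∈ ν.2.2) ?_
  refine of_comput ?_
  have hdec : Computable fun x : List Bool × ((Bool × Bool) × Bool × List Bool × ℕ × ℕ × ℕ) =>
      decide (b.1 + b.2.1.length ≤ x.2.2.2.2.2.1) :=
    cdecide (cp_le (by fun_prop) (by fun_prop))
  refine cp_and (cp_le (by fun_prop) (by fun_prop)) (cp_and (cp_le (by fun_prop) (by fun_prop))
    (cp_and (cp_eq (by fun_prop) (by fun_prop)) (cp_and ?_ (cp_and
    (cp_wst (by fun_prop) (by fun_prop) (by fun_prop)) (cp_and (cp_le (by fun_prop) (by fun_prop))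
    (cp_and (cp_Vs (by fun_prop) (by fun_prop) (by fun_prop) (by fun_prop) (by fun_prop))
    (cp_mem (by fun_prop) (by fun_prop))))))))
  refine cp_all_lt (p := fun (x : List Bool × ((Bool × Bool) × Bool × List Bool × ℕ × ℕ × ℕ)) i =>
    (hd x.2.2.1 ν).length ≤ i → gb x.2.2.2.1 i = true →
      gb x.1 (6 * i + gi x.2.1) = x.2.2.1) ?_ (by fun_prop)
  exact cp_imp (cp_le (by fun_prop) (by fun_prop)) (cp_imp (cp_eq (by fun_prop) (by fun_prop))
    (cp_eq (by fun_prop) (by fun_prop)))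

theorem re_Out {S : ℕ → List Block} (hS : Computable S) (b : Block) (j : ℕ) (ν : Node) :
    REPred (Out S b j ν) :=
  RE.or (RE.or (re_O1 hS) (re_O2 b)) (RE.or (re_O3 j) (re_O4 b j ν))

end Pool.Agent.helper643_RW
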