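import Pool.Agent.helper643_RW.FI

set_option autoImplicit false

/-!
Definitions for the construction of the two trees: blocks, nodes, opportunities, and the
computability of all these notions.
-/

namespace Pool.Agent.helper643_RW

open Pool.Agent.Helper926 Pool.Agent.Helper926.RE

/-- colours of one number for the two trees -/
abbrev Pt := Bool × Bool
/-- side, functional, colour -/
abbrev Tri := Bool × ℕ × Bool
/-- the two heads and the triples which have not been hit -/
abbrev Node := List Bool × List Bool × List Tri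
/-- start, colours, nodes -/
abbrev Block := ℕ × List Pt × List Node
/-- side, new head, functional, number hit, new remaining triples -/
abbrev Hit := Bool × List Bool × ℕ × ℕ × List Tri
/-- new colours, number of blocks used, node, level, hits -/
abbrev Wit := List Pt × ℕ × ℕ × ℕ × List Hit

/-- colour for the tree `c` -/
def col (c : Bool) (p : Pt) : Bool := bif c then p.2 else p.1
/-- entry of a Boolean list -/
def gb (l : List Bool) (i : ℕ) : Bool := l.getD i false
/-- entry of a list of pairs -/
def gp (l : List Pt) (i : ℕ) : Pt := l.getD i (false, false)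
/-- head on the side `c` -/
def hd (c : Bool) (ν : Node) : List Bool := bif c then ν.2.1 else ν.1
/-- block number `j` -/
def gB (L : List Block) (j : ℕ) : Block := L.getD j (0, [], [])
/-- node number `k` -/
def gN (N : List Node) (k : ℕ) : Node := N.getD k ([], [], [])

/-- number of functionals of the requirement `j` -/
def rI (j : ℕ) : ℕ := j.unpair.1
/-- index of the functionals -/
def eI (j : ℕ) : ℕ := j.unpair.2.unpair.1
/-- index of the restriction on the colouring -/
def gI (j : ℕ) : ℕ := j.unpair.2.unpair.2.unpair.1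
/-- index of the admissible strings -/
def aI (j : ℕ) : ℕ := j.unpair.2.unpair.2.unpair.2

/-- the number `n` is in the output of functional `l` on the string `σ`, seen at stage `s` -/
def Vs (s e l : ℕ) (σ : List Bool) (n : ℕ) : Prop :=
  ∃ k, k < σ.length + 1 ∧ wst (ℕ × List Bool × ℕ) e s (l, σ.take k, n) = true

/-- the string `g` is refuted at stage `s` -/
def Rf (s e : ℕ) (g : List Bool) : Prop :=
  ∃ n, n < g.length ∧ wst (ℕ × Bool) e s (n, !(gb g n)) = true

/-- all strings of length `n` -/
def allL (n : ℕ) : List (List Bool) :=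
  Nat.rec [[]] (fun _ L => L.flatMap fun l => [l ++ [false], l ++ [true]]) n

/-- all triples -/
def allTr (r : ℕ) : List Tri :=
  (List.range r).flatMap fun l => [(false, l, false), (false, l, true), (true, l, false),
    (true, l, true)]

/-- colours of all blocks -/
def fl (L : List Block) : List Pt := L.flatMap fun b => b.2.1

/-- `t` is a valid hit for the node `ν` -/
def VH (s j a : ℕ) (y : List Pt) (u : ℕ) (ν : Node) (t : Hit) : Prop :=
  t.2.1.length ≤ u ∧ hd t.1 ν = t.2.1.take (hd t.1 ν).length ∧ a ≤ t.2.2.2.1 ∧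
  t.2.2.2.1 < a + y.length ∧ Vs s (eI j) t.2.2.1 t.2.1 t.2.2.2.1 ∧
  wst (Bool × List Bool) (aI j) s (t.1, t.2.1) = true ∧
  t.2.2.2.2.length < ν.2.2.length ∧
  ∀ x ∈ ν.2.2, x = (t.1, t.2.2.1, col t.1 (gp y (t.2.2.2.1 - a))) ∨ x ∈ t.2.2.2.2

/-- the hits in `F` meet every colouring -/
def Cov (s j u : ℕ) (ν : Node) (F : List Hit) : Prop :=
  ∀ g ∈ allL u, Rf s (gI j) g ∨ ∃ t ∈ F, ∀ i < t.2.1.length, (hd t.1 ν).length ≤ i →
    gb t.2.1 i = true → gb g i = t.1

/-- `y` is compatible with the later block `b` -/
def CmpB (a : ℕ) (y : List Pt) (b : Block) : Prop :=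
  ∀ u < b.2.1.length, ∀ v < b.2.1.length, ∀ c ∈ [false, true],
    (col c (gp y (b.1 - a + u)) ^^ col c (gp y (b.1 - a + v))) =
    (col c (gp b.2.1 u) ^^ col c (gp b.2.1 v))

/-- `w` is an opportunity for the requirement `j` in the state `L`, seen at stage `s` -/
def Opp (s : ℕ) (L : List Block) (j : ℕ) (w : Wit) : Prop :=
  w.2.1 = L.length ∧ j < L.length ∧ w.1.length = (fl (L.drop j)).length ∧
  (∀ i < (gB L j).2.1.length, gp w.1 i = gp (gB L j).2.1 i) ∧
  (∀ b ∈ L.drop (j + 1), CmpB (gB L j).1 w.1 b) ∧
  w.2.2.1 < (gB L j).2.2.length ∧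
  (∀ t ∈ w.2.2.2.2, VH s j (gB L j).1 w.1 w.2.2.2.1 (gN (gB L j).2.2 w.2.2.1) t) ∧
  Cov s j w.2.2.2.1 (gN (gB L j).2.2 w.2.2.1) w.2.2.2.2

/-- the new node -/
def child (ν : Node) (t : Hit) : Node :=
  (bif t.1 then ν.1 else t.2.1, bif t.1 then t.2.1 else ν.2.1, t.2.2.2.2)

/-- decoding of witnesses -/
def dw (w : ℕ) : Wit := (Encodable.decode (α := Wit) w).getD ([], 0, 0, 0, [])

/-- the new block -/
def apB (S : List Block) (j : ℕ) (w : Wit) : Block :=
  ((gB S j).1, w.1 ++ fl (S.drop w.2.1),
    ((gB S j).2.2.take w.2.2.1 ++ (gB S j).2.2.drop (w.2.2.1 + 1)) ++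
      w.2.2.2.2.map (child (gN (gB S j).2.2 w.2.2.1)))

/-- a fresh block -/
def nwB (S : List Block) : Block :=
  ((fl S).length, [(false, false)], [([], [], allTr (rI S.length))])

section comp

variable {α : Type} [Primcodable α]

@[fun_prop] theorem c_col {c : α → Bool} {p : α → Pt} (hc : Computable c) (hp : Computable p) :
    Computable fun x => col (c x) (p x) := by
  unfold col; fun_prop

@[fun_prop] theorem c_gb {l : α → List Bool} {i : α → ℕ} (hl : Computable l)
    (hi : Computable i) : Computable fun x => gb (l x) (i x) := by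
  unfold gb; fun_prop

@[fun_prop] theorem c_gp {l : α → List Pt} {i : α → ℕ} (hl : Computable l)
    (hi : Computable i) : Computable fun x => gp (l x) (i x) := by
  unfold gp; fun_prop

@[fun_prop] theorem c_hd {c : α → Bool} {p : α → Node} (hc : Computable c)
    (hp : Computable p) : Computable fun x => hd (c x) (p x) := by
  unfold hd; fun_prop

@[fun_prop] theorem c_gB {l : α → List Block} {i : α → ℕ} (hl : Computable l)
    (hi : Computable i) : Computable fun x => gB (l x) (i x) := by
  unfold gB; fun_prop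

@[fun_prop] theorem c_gN {l : α → List Node} {i : α → ℕ} (hl : Computable l)
    (hi : Computable i) : Computable fun x => gN (l x) (i x) := by
  unfold gN; fun_prop

@[fun_prop] theorem c_rI {i : α → ℕ} (hi : Computable i) : Computable fun x => rI (i x) := by
  unfold rI; fun_prop
@[fun_prop] theorem c_eI {i : α → ℕ} (hi : Computable i) : Computable fun x => eI (i x) := by
  unfold eI; fun_prop
@[fun_prop] theorem c_gI {i : α → ℕ} (hi : Computable i) : Computable fun x => gI (i x) := by
  unfold gI; fun_prop
@[fun_prop] theorem c_aI {i : α → ℕ} (hi : Computable i) : Computable fun x => aI (i x) := by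
  unfold aI; fun_prop

theorem p_allL : Primrec allL := by
  refine Primrec.nat_rec₁ (f := fun _ L => L.flatMap fun l : List Bool =>
    [l ++ [false], l ++ [true]]) [[]] ?_
  refine Primrec.list_flatMap Primrec.snd ?_
  have h1 : Primrec fun x : (ℕ × List (List Bool)) × List Bool => x.2 := Primrec.snd
  exact (Primrec.list_cons.comp (Primrec.list_append.comp h1 (Primrec.const [false]))
    (Primrec.list_cons.comp (Primrec.list_append.comp h1 (Primrec.const [true]))
      (Primrec.const [])))

@[fun_prop] theorem c_allL {i : α → ℕ} (hi : Computable i) :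
    Computable fun x => allL (i x) := p_allL.to_comp.comp hi

theorem p_allTr : Primrec allTr := by
  refine Primrec.list_flatMap Primrec.list_range ?_
  have h1 : Primrec fun x : ℕ × ℕ => x.2 := Primrec.snd
  have h2 : ∀ a b : Bool, Primrec fun x : ℕ × ℕ => ((a, x.2, b) : Tri) := fun a b =>
    Primrec.pair (Primrec.const a) (Primrec.pair h1 (Primrec.const b))
  exact (Primrec.list_cons.comp (h2 _ _) (Primrec.list_cons.comp (h2 _ _)
    (Primrec.list_cons.comp (h2 _ _) (Primrec.list_cons.comp (h2 _ _) (Primrec.const [])))))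

@[fun_prop] theorem c_allTr {i : α → ℕ} (hi : Computable i) :
    Computable fun x => allTr (i x) := p_allTr.to_comp.comp hi

theorem p_fl : Primrec fl := by
  refine Primrec.list_flatMap Primrec.id ?_
  exact Primrec.fst.comp (Primrec.snd.comp Primrec.snd)

@[fun_prop] theorem c_fl {l : α → List Block} (hl : Computable l) :
    Computable fun x => fl (l x) := p_fl.to_comp.comp hl

theorem cp_wst {β : Type} [Primcodable β] {e s : α → ℕ} {x : α → β} (he : Computable e)
    (hs : Computable s) (hx : Computable x) :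
    ComputablePred fun a => wst β (e a) (s a) (x a) = true := by
  have h := (wst_comp (α := β)).comp (f := fun p : (ℕ × ℕ) × β => wst β p.1.1 p.1.2 p.2)
    (g := fun a : α => ((e a, s a), x a)) (by fun_prop)
  exact cp_eq h (cconst true)

theorem cp_Vs {s e l n : α → ℕ} {σ : α → List Bool} (hs : Computable s) (he : Computable e)
    (hl : Computable l) (hσ : Computable σ) (hn : Computable n) :
    ComputablePred fun a => Vs (s a) (e a) (l a) (σ a) (n a) := by
  unfold Vs
  refine cp_ex_lt (p := fun a k => wst (ℕ × List Bool × ℕ) (e a) (s a)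
    (l a, (σ a).take k, n a) = true) ?_ (by fun_prop)
  exact cp_wst (by fun_prop) (by fun_prop) (by fun_prop)

theorem cp_Rf {s e : α → ℕ} {g : α → List Bool} (hs : Computable s) (he : Computable e)
    (hg : Computable g) : ComputablePred fun a => Rf (s a) (e a) (g a) := by
  unfold Rf
  refine cp_ex_lt (p := fun a n => wst (ℕ × Bool) (e a) (s a) (n, !(gb (g a) n)) = true) ?_
    (by fun_prop)
  exact cp_wst (by fun_prop) (by fun_prop) (by fun_prop)

theorem cp_VH {s j a u : α → ℕ} {y : α → List Pt} {ν : α → Node} {t : α → Hit}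
    (hs : Computable s) (hj : Computable j) (ha : Computable a) (hu : Computable u)
    (hy : Computable y) (hν : Computable ν) (ht : Computable t) :
    ComputablePred fun x => VH (s x) (j x) (a x) (y x) (u x) (ν x) (t x) := by
  unfold VH
  refine cp_and (cp_le (by fun_prop) (by fun_prop)) (cp_and (cp_eq (by fun_prop) (by fun_prop))
    (cp_and (cp_le (by fun_prop) (by fun_prop)) (cp_and (cp_lt (by fun_prop) (by fun_prop))
    (cp_and (cp_Vs (by fun_prop) (by fun_prop) (by fun_prop) (by fun_prop) (by fun_prop))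
    (cp_and (cp_wst (by fun_prop) (by fun_prop) (by fun_prop))
    (cp_and (cp_lt (by fun_prop) (by fun_prop)) ?_))))))
  refine cp_all_mem (p := fun (x : α) (z : Tri) => z = ((t x).1, (t x).2.2.1,
    col (t x).1 (gp (y x) ((t x).2.2.2.1 - a x))) ∨ z ∈ (t x).2.2.2.2) ?_ (by fun_prop)
  exact cp_or (cp_eq (by fun_prop) (by fun_prop)) (cp_mem (by fun_prop) (by fun_prop))

theorem cp_Cov {s j u : α → ℕ} {ν : α → Node} {F : α → List Hit}
    (hs : Computable s) (hj : Computable j) (hu : Computable u)
    (hν : Computable ν) (hF : Computable F) :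
    ComputablePred fun x => Cov (s x) (j x) (u x) (ν x) (F x) := by
  unfold Cov
  refine cp_all_mem (p := fun (x : α) (g : List Bool) => Rf (s x) (gI (j x)) g ∨ ∃ t ∈ F x,
    ∀ i < t.2.1.length, (hd t.1 (ν x)).length ≤ i → gb t.2.1 i = true → gb g i = t.1) ?_
    (by fun_prop)
  refine cp_or (cp_Rf (by fun_prop) (by fun_prop) (by fun_prop)) ?_
  refine cp_ex_mem (p := fun (x : α × List Bool) (t : Hit) =>
    ∀ i < t.2.1.length, (hd t.1 (ν x.1)).length ≤ i → gb t.2.1 i = true → gb x.2 i = t.1) ?_
    (by fun_prop)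
  refine cp_all_lt (p := fun (x : (α × List Bool) × Hit) i =>
    (hd x.2.1 (ν x.1.1)).length ≤ i → gb x.2.2.1 i = true → gb x.1.2 i = x.2.1) ?_
    (by fun_prop)
  exact cp_imp (cp_le (by fun_prop) (by fun_prop)) (cp_imp (cp_eq (by fun_prop) (by fun_prop))
    (cp_eq (by fun_prop) (by fun_prop)))

theorem cp_CmpB {a : α → ℕ} {y : α → List Pt} {b : α → Block}
    (ha : Computable a) (hy : Computable y) (hb : Computable b) :
    ComputablePred fun x => CmpB (a x) (y x) (b x) := by
  unfold CmpB
  refine cp_all_lt (p := fun (x : α) u => ∀ v < (b x).2.1.length, ∀ c ∈ [false, true],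
    (col c (gp (y x) ((b x).1 - a x + u)) ^^ col c (gp (y x) ((b x).1 - a x + v))) =
    (col c (gp (b x).2.1 u) ^^ col c (gp (b x).2.1 v))) ?_ (by fun_prop)
  refine cp_all_lt (p := fun (z : α × ℕ) v => ∀ c ∈ [false, true],
    (col c (gp (y z.1) ((b z.1).1 - a z.1 + z.2)) ^^ col c (gp (y z.1) ((b z.1).1 - a z.1 + v))) =
    (col c (gp (b z.1).2.1 z.2) ^^ col c (gp (b z.1).2.1 v))) ?_ (by fun_prop)
  refine cp_all_mem (p := fun (z : (α × ℕ) × ℕ) (c : Bool) =>
    (col c (gp (y z.1.1) ((b z.1.1).1 - a z.1.1 + z.1.2)) ^^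
      col c (gp (y z.1.1) ((b z.1.1).1 - a z.1.1 + z.2))) =
    (col c (gp (b z.1.1).2.1 z.1.2) ^^ col c (gp (b z.1.1).2.1 z.2))) ?_ (by fun_prop)
  exact cp_eq (by fun_prop) (by fun_prop)

theorem cp_Opp {s j : α → ℕ} {L : α → List Block} {w : α → Wit}
    (hs : Computable s) (hL : Computable L) (hj : Computable j) (hw : Computable w) :
    ComputablePred fun x => Opp (s x) (L x) (j x) (w x) := by
  unfold Opp
  refine cp_and (cp_eq (by fun_prop) (by fun_prop)) (cp_and (cp_lt (by fun_prop) (by fun_prop))
    (cp_and (cp_eq (by fun_prop) (by fun_prop)) (cp_and ?_ (cp_and ?_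
    (cp_and (cp_lt (by fun_prop) (by fun_prop)) (cp_and ?_ ?_))))))
  · refine cp_all_lt (p := fun (x : α) i => gp (w x).1 i = gp (gB (L x) (j x)).2.1 i) ?_
      (by fun_prop)
    exact cp_eq (by fun_prop) (by fun_prop)
  · refine cp_all_mem (p := fun (x : α) (b : Block) => CmpB (gB (L x) (j x)).1 (w x).1 b) ?_
      (by fun_prop)
    exact cp_CmpB (by fun_prop) (by fun_prop) (by fun_prop)
  · refine cp_all_mem (p := fun (x : α) (t : Hit) => VH (s x) (j x) (gB (L x) (j x)).1 (w x).1
      (w x).2.2.2.1 (gN (gB (L x) (j x)).2.2 (w x).2.2.1) t) ?_ (by fun_prop)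
    exact cp_VH (by fun_prop) (by fun_prop) (by fun_prop) (by fun_prop) (by fun_prop)
      (by fun_prop) (by fun_prop)
  · exact cp_Cov (by fun_prop) (by fun_prop) (by fun_prop) (by fun_prop) (by fun_prop)

theorem p_child : Primrec₂ child := by
  have h1 : Primrec fun x : Node × Hit => x.2.1 := Primrec.fst.comp Primrec.snd
  have h2 : Primrec fun x : Node × Hit => x.2.2.1 :=
    Primrec.fst.comp (Primrec.snd.comp Primrec.snd)
  have h3 : Primrec fun x : Node × Hit => x.1.1 := Primrec.fst.comp Primrec.fst
  have h4 : Primrec fun x : Node × Hit => x.1.2.1 :=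
    Primrec.fst.comp (Primrec.snd.comp Primrec.fst)
  have h5 : Primrec fun x : Node × Hit => x.2.2.2.2.2 :=
    Primrec.snd.comp (Primrec.snd.comp (Primrec.snd.comp (Primrec.snd.comp Primrec.snd)))
  exact (Primrec.cond h1 h3 h2).pair ((Primrec.cond h1 h2 h4).pair h5)

theorem p_mapchild : Primrec fun x : Node × List Hit => x.2.map (child x.1) :=
  Primrec.list_map Primrec.snd (p_child.comp (Primrec.fst.comp Primrec.fst) Primrec.snd).to₂

@[fun_prop] theorem c_mapchild {l : α → List Hit} {ν : α → Node} (hl : Computable l)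
    (hν : Computable ν) : Computable fun x => (l x).map (child (ν x)) :=
  p_mapchild.to_comp.comp (hν.pair hl)

@[fun_prop] theorem c_dw {i : α → ℕ} (hi : Computable i) : Computable fun x => dw (i x) := by
  unfold dw; fun_prop

@[fun_prop] theorem c_apB {S : α → List Block} {j : α → ℕ} {w : α → Wit} (hS : Computable S)
    (hj : Computable j) (hw : Computable w) : Computable fun x => apB (S x) (j x) (w x) := by
  unfold apB; fun_prop

@[fun_prop] theorem c_nwB {S : α → List Block} (hS : Computable S) :
    Computable fun x => nwB (S x) := by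
  unfold nwB; fun_prop

end comp

end Pool.Agent.helper643_RW
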