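import Pool.Agent.helper643_RW.Cls

set_option autoImplicit false

/-!
Members of the class, and the case of exceptional colourings.
-/

namespace Pool.Agent.helper643_RW

open Pool.Agent.Helper926 Pool.Agent.Helper926.RE

section

variable {S : ℕ → List Block} {B : ℕ → Block}

theorem gb_app {z w : List Bool} {i : ℕ} (h : i < z.length) : gb (z ++ w) i = gb z i :=
  gb_prefix ⟨w, rfl⟩ h

theorem Out_mono {b : Block} {j : ℕ} {ν : Node} {z w : List Bool} (h : Out S b j ν z) :
    Out S b j ν (z ++ w) := by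
  have hl : (z ++ w).length = z.length + w.length := List.length_append
  rcases h with (h | h) | (h | h)
  · left; left
    obtain ⟨q, a1, a2, a3, a4⟩ := h
    have hx := xi_lt q.2.1
    refine ⟨q, a1, by omega, by omega, ?_⟩
    rw [gb_app (by omega), gb_app (by omega)]
    exact a4
  · left; right
    obtain ⟨q, a1, a2, a3⟩ := h
    have hx := xi_lt q.1
    refine ⟨q, a1, by omega, ?_⟩
    rw [gb_app (by omega)]
    exact a3
  · right; left
    obtain ⟨q, a1, a2⟩ := h
    have hx := gi_lt q.1
    refine ⟨q, by omega, ?_⟩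
    rw [gb_app (by omega)]
    exact a2
  · right; right
    obtain ⟨q, a1, a2, a3, a4, a5, a6, a7, a8⟩ := h
    have hx := xi_lt q.2.1
    have hg := gi_lt q.1
    refine ⟨q, by omega, by omega, a3, ?_, a5, a6, a7, ?_⟩
    · intro i hi h1 h2
      rw [gb_app (by omega)]
      exact a4 i hi h1 h2
    · rw [gb_app (by omega)]
      exact a8

theorem InC_iff {b : Block} {j : ℕ} {ν : Node} {P : ℕ → Bool} : InC S b j ν P ↔
    (∀ c, Pth S c (cm P (xi c))) ∧
    (∀ c, ∀ u < b.2.1.length, cm P (xi c) (b.1 + u) = col c (gp b.2.1 u)) ∧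
    (∀ α n s, wst (ℕ × Bool) (gI j) s (n, !cm P (gi α) n) = false) ∧
    (∀ α c, ∀ ρ l n s, hd c ν <+: ρ → (∀ i < ρ.length, (hd c ν).length ≤ i → gb ρ i = true →
      cm P (gi α) i = c) → wst (Bool × List Bool) (aI j) s (c, ρ) = true → b.1 ≤ n →
      Vs s (eI j) l ρ n →
      (c, l, fx (b.1 + b.2.1.length) (col c α) (cm P (xi c)) n) ∉ ν.2.2) := by
  constructor
  · intro h
    refine ⟨?_, ?_, ?_, ?_⟩
    · intro c s n n' v hl
      by_contra hne
      have hx := xi_lt c
      refine h (6 * (n + n') + 6) (Or.inl (Or.inl ⟨(s, c, n, n', v), hl, ?_, ?_, ?_⟩))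
      · rw [rs_length]; simp only; omega
      · rw [rs_length]; simp only; omega
      · simp only
        rw [gb_rs (by omega), gb_rs (by omega)]
        exact hne
    · intro c u hu
      by_contra hne
      have hx := xi_lt c
      refine h (6 * (b.1 + u) + 6) (Or.inl (Or.inr ⟨(c, u), hu, ?_, ?_⟩))
      · rw [rs_length]
      · simp only
        rw [gb_rs (by omega)]
        exact hne
    · intro α n s
      by_contra hne
      have hx := gi_lt α
      refine h (6 * n + 6) (Or.inr (Or.inl ⟨(α, n, s), ?_, ?_⟩))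
      · rw [rs_length]
      · simp only
        rw [gb_rs (by omega)]
        unfold cm at hne
        simpa using hne
    · intro α c ρ l n s h1 h2 h3 h4 h5 h6
      have hx := xi_lt c
      have hg := gi_lt α
      refine h (6 * (ρ.length + n) + 6) (Or.inr (Or.inr ⟨(α, c, ρ, l, n, s), ?_, ?_,
        List.prefix_iff_eq_take.1 h1, ?_, h3, h4, h5, ?_⟩))
      · rw [rs_length]; simp only; omega
      · rw [rs_length]; simp only; omega
      · intro i hi a b
        simp only at hi a b ⊢
        rw [gb_rs (by omega)]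
        exact h2 i hi a b
      · simp only
        rw [gb_rs (by omega)]
        exact h6
  · rintro ⟨h1, h2, h3, h4⟩ k hO
    rcases hO with (h | h) | (h | h)
    · obtain ⟨⟨s, c, n, n', v⟩, a1, a2, a3, a4⟩ := h
      simp only [rs_length] at a1 a2 a3 a4
      have hx := xi_lt c
      rw [gb_rs (by omega), gb_rs (by omega)] at a4
      exact a4 (h1 c s n n' v a1)
    · obtain ⟨⟨c, u⟩, a1, a2, a3⟩ := h
      simp only [rs_length] at a1 a2 a3
      have hx := xi_lt c
      rw [gb_rs (by omega)] at a3
      exact a3 (h2 c u a1)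
    · obtain ⟨⟨α, n, s⟩, a1, a2⟩ := h
      simp only [rs_length] at a1 a2
      have hx := gi_lt α
      rw [gb_rs (by omega)] at a2
      have := h3 α n s
      unfold cm at this
      rw [this] at a2
      exact absurd a2 (by simp)
    · obtain ⟨⟨α, c, ρ, l, n, s⟩, a1, a2, a3, a4, a5, a6, a7, a8⟩ := h
      simp only [rs_length] at a1 a2 a3 a4 a5 a6 a7 a8
      have hx := xi_lt c
      have hg := gi_lt α
      rw [gb_rs (by omega)] at a8
      refine h4 α c ρ l n s (List.prefix_iff_eq_take.2 a3) (fun i hi a b => ?_) a5 a6 a7 a8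
      have := a4 i hi a b
      rw [gb_rs (by omega)] at this
      exact this

theorem Con.InC_ne (h : Con S B) (j : ℕ) (ν : Node) (hν : ν ∈ (B j).2.2) :
    ∃ P, InC S (B j) j ν P := by
  classical
  set m := (B j).1 + (B j).2.1.length with hm
  have key : ∀ α : Bool × Bool, ∃ g : ℕ → Bool,
      (∀ n s, wst (ℕ × Bool) (gI j) s (n, !g n) = false) ∧
      ∀ c ρ l n s, hd c ν <+: ρ → (∀ i < ρ.length, (hd c ν).length ≤ i → gb ρ i = true →
        g i = c) → wst (Bool × List Bool) (aI j) s (c, ρ) = true → (B j).1 ≤ n →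
        Vs s (eI j) l ρ n → (c, l, fx m (col c α) (tp B c) n) ∉ ν.2.2 := by
    intro α
    refine h.sat_g j ν hν (fun c => fx m (col c α) (tp B c))
      (fun c => h.fx_pth c _ (h.tp_pth c) j _) ?_
    intro c u hu
    rw [fx_lt (by omega)]
    exact h.tp_eq c j hu
  choose g hg1 hg2 using key
  set P : ℕ → Bool := fun k =>
    if k % 6 = 0 then tp B false (k / 6) else if k % 6 = 1 then tp B true (k / 6) else
    if k % 6 = 2 then g (false, false) (k / 6) else if k % 6 = 3 then g (true, false) (k / 6) else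
    if k % 6 = 4 then g (false, true) (k / 6) else g (true, true) (k / 6) with hP
  have hm6 : ∀ n i, i < 6 → (6 * n + i) % 6 = i ∧ (6 * n + i) / 6 = n := by
    intro n i hi; omega
  have hPx : ∀ c n, cm P (xi c) n = tp B c n := by
    intro c n
    obtain ⟨e1, e2⟩ := hm6 n (xi c) (xi_lt c)
    unfold cm
    rw [hP]
    simp only [e1, e2]
    cases c <;> simp [xi]
  have hPg : ∀ α n, cm P (gi α) n = g α n := by
    intro α n
    obtain ⟨e1, e2⟩ := hm6 n (gi α) (gi_lt α)
    unfold cm
    rw [hP]
    simp only [e1, e2]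
    obtain ⟨a, b⟩ := α
    cases a <;> cases b <;> simp [gi]
  have hPx' : ∀ c, cm P (xi c) = tp B c := fun c => funext (hPx c)
  refine ⟨P, InC_iff.2 ⟨?_, ?_, ?_, ?_⟩⟩
  · intro c
    rw [hPx']
    exact h.tp_pth c
  · intro c u hu
    rw [hPx]
    exact h.tp_eq c j hu
  · intro α n s
    rw [hPg]
    exact hg1 α n s
  · intro α c ρ l n s h1 h2 h3 h4 h5
    rw [hPx']
    exact hg2 α c ρ l n s h1 (fun i hi a b => by rw [← hPg]; exact h2 i hi a b) h3 h4 h5

/-- the colour `b` is acceptable at `n` -/
def Ac (b : Bool) (P : ℕ → Bool) (n : ℕ) : Prop :=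
  ∃ α α' : Bool × Bool, col b α ≠ col b α' ∧ cm P (gi α) n = b ∧ cm P (gi α') n = b

theorem Ac_or (P : ℕ → Bool) (n : ℕ) (b : Bool) : Ac b P n ∨ Ac (!b) P n := by
  by_contra hc
  rw [not_or] at hc
  obtain ⟨h1, h2⟩ := hc
  have key : ∀ b α α', col b α ≠ col b α' → ¬ Ac b P n →
      cm P (gi α) n = !b ∨ cm P (gi α') n = !b := by
    intro b α α' hne h
    by_contra hcc
    rw [not_or] at hcc
    obtain ⟨a1, a2⟩ := hcc
    refine h ⟨α, α', hne, ?_, ?_⟩
    · revert a1; cases cm P (gi α) n <;> cases b <;> simp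
    · revert a2; cases cm P (gi α') n <;> cases b <;> simp
  have hb : ¬ Ac false P n ∧ ¬ Ac true P n := by
    cases b
    · exact ⟨h1, h2⟩
    · exact ⟨h2, h1⟩
  have f1 := key false (false, false) (true, false) (by decide) hb.1
  have f2 := key false (false, false) (true, true) (by decide) hb.1
  have f3 := key false (false, true) (true, false) (by decide) hb.1
  have f4 := key false (false, true) (true, true) (by decide) hb.1
  have t1 := key true (false, false) (false, true) (by decide) hb.2
  have t2 := key true (false, false) (true, true) (by decide) hb.2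
  have t3 := key true (true, false) (false, true) (by decide) hb.2
  have t4 := key true (true, false) (true, true) (by decide) hb.2
  revert f1 f2 f3 f4 t1 t2 t3 t4
  cases cm P (gi (false, false)) n <;> cases cm P (gi (false, true)) n <;>
    cases cm P (gi (true, false)) n <;> cases cm P (gi (true, true)) n <;> simp

theorem Ac_congr {b : Bool} {P Q : ℕ → Bool} {n : ℕ} (h : ∀ i < 6 * n + 6, P i = Q i)
    (ha : Ac b P n) : Ac b Q n := by
  obtain ⟨α, α', h1, h2, h3⟩ := ha
  have e1 := gi_lt α
  have e2 := gi_lt α'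
  refine ⟨α, α', h1, ?_, ?_⟩
  · unfold cm at *
    rw [← h _ (by omega)]
    exact h2
  · unfold cm at *
    rw [← h _ (by omega)]
    exact h3

/-- the four indices -/
def four : List (Bool × Bool) := [(false, false), (false, true), (true, false), (true, true)]

theorem mem_four (α : Bool × Bool) : α ∈ four := by
  obtain ⟨a, b⟩ := α
  cases a <;> cases b <;> decide

theorem cp_Ac {α : Type} [Primcodable α] {b : α → Bool} {z : α → List Bool} {n : α → ℕ}
    (hb : Computable b) (hz : Computable z) (hn : Computable n) :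
    ComputablePred fun x => Ac (b x) (gb (z x)) (n x) := by
  have h1 := cp_ex_mem (p := fun (x : α) (i : Bool × Bool) => ∃ i' ∈ four,
    col (b x) i ≠ col (b x) i' ∧ gb (z x) (6 * n x + gi i) = b x ∧
      gb (z x) (6 * n x + gi i') = b x) (l := fun _ => four) (by
      refine cp_ex_mem (p := fun (y : α × (Bool × Bool)) (i' : Bool × Bool) =>
        col (b y.1) y.2 ≠ col (b y.1) i' ∧ gb (z y.1) (6 * n y.1 + gi y.2) = b y.1 ∧
        gb (z y.1) (6 * n y.1 + gi i') = b y.1) ?_ (by fun_prop)
      exact cp_and (cp_not (cp_eq (by fun_prop) (by fun_prop))) (cp_and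
        (cp_eq (by fun_prop) (by fun_prop)) (cp_eq (by fun_prop) (by fun_prop)))) (by fun_prop)
  refine h1.of_eq fun x => ?_
  unfold Ac cm
  constructor
  · rintro ⟨i, _, i', _, a⟩
    exact ⟨i, i', a⟩
  · rintro ⟨i, i', a⟩
    exact ⟨i, mem_four i, i', mem_four i', a⟩

theorem Con.exc (h : Con S B) (j : ℕ) (ν : Node) (hν : ν ∈ (B j).2.2) (f : ℕ → Bool)
    (Z : ℕ → ℕ → Prop) (hZ : ∀ N, ComputablePred (Z N))
    (hcov : ∀ P, InC S (B j) j ν P → ∃ N, ∀ y, Z N y → ¬ Ac (f y) P y) :
    ∃ N, REPred fun x : ℕ × Bool => Z N x.1 ∧ f x.1 = x.2 := by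
  classical
  have hcl : IsClosed {P | InC S (B j) j ν P} := by
    have e : {P | InC S (B j) j ν P} = ⋂ k, {P | ¬ Out S (B j) j ν (rs P k)} := by
      ext P
      simp only [Set.mem_iInter]
      rfl
    rw [e]
    exact isClosed_iInter fun k => isClosed_rs k fun z => ¬ Out S (B j) j ν z
  obtain ⟨N, P0, hP0, k, hk⟩ := baire_cyl {P | InC S (B j) j ν P} hcl (h.InC_ne j ν hν)
    (fun N => {P | ∀ y, Z N y → ¬ Ac (f y) P y}) (by
      intro N
      have e : {P : ℕ → Bool | ∀ y, Z N y → ¬ Ac (f y) P y} =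
          ⋂ y, {P | Z N y → ¬ Ac (f y) (gb (rs P (6 * y + 6))) y} := by
        ext P
        simp only [Set.mem_iInter]
        constructor
        · intro hp y hz ha
          exact hp y hz (Ac_congr (fun i hi => gb_rs hi) ha)
        · intro hp y hz ha
          exact hp y hz (Ac_congr (fun i hi => (gb_rs hi).symm) ha)
      rw [e]
      exact isClosed_iInter fun y => isClosed_rs (6 * y + 6) fun z =>
        Z N y → ¬ Ac (f y) (gb z) y) hcov
  refine ⟨N, ?_⟩
  have hre : REPred fun x : ℕ × Bool => Z N x.1 ∧ ∃ L : ℕ, (k ≤ L ∧ 6 * x.1 + 6 ≤ L) ∧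
      ∀ z ∈ allL L, (z.take k ≠ rs P0 k ∨ Out S (B j) j ν z) ∨ ¬ Ac x.2 (gb z) x.1 := by
    refine RE.and (of_comput (cp_comp (hZ N) Computable.fst)) ?_
    refine RE.ex (p := fun (x : ℕ × Bool) (L : ℕ) => (k ≤ L ∧ 6 * x.1 + 6 ≤ L) ∧
      ∀ z ∈ allL L, (z.take k ≠ rs P0 k ∨ Out S (B j) j ν z) ∨ ¬ Ac x.2 (gb z) x.1) ?_
    refine RE.and (of_comput (cp_and (cp_le (by fun_prop) (by fun_prop))
      (cp_le (by fun_prop) (by fun_prop)))) ?_
    refine RE.all_mem (p := fun (x : (ℕ × Bool) × ℕ) (z : List Bool) =>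
      (z.take k ≠ rs P0 k ∨ Out S (B j) j ν z) ∨ ¬ Ac x.1.2 (gb z) x.1.1) ?_ (by fun_prop)
    refine RE.or (RE.or (RE.ne (by fun_prop) (by fun_prop)) ?_) (of_comput (cp_not
      (cp_Ac (by fun_prop) (by fun_prop) (by fun_prop))))
    exact RE.comp (re_Out h.comp (B j) j ν) Computable.snd
  refine hre.of_eq fun x => ?_
  obtain ⟨y, b⟩ := x
  simp only
  constructor
  · rintro ⟨hz, L, ⟨h1, h2⟩, h3⟩
    refine ⟨hz, ?_⟩
    rcases h3 (rs P0 L) (mem_allL.2 (rs_length _ _)) with (h4 | h4) | h4
    · exfalso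
      apply h4
      have := rs_prefix P0 h1
      rw [List.prefix_iff_eq_take, rs_length] at this
      exact this.symm
    · exact absurd h4 (hP0 L)
    · have h5 : ¬ Ac b P0 y := fun ha =>
        h4 (Ac_congr (fun i hi => (gb_rs (by omega)).symm) ha)
      have h6 : ¬ Ac (f y) P0 y := hk P0 hP0 (fun _ _ => rfl) y hz
      by_contra hne
      have : f y = !b := by
        revert hne
        cases f y <;> cases b <;> simp
      rw [this] at h6
      rcases Ac_or P0 y b with a | a
      · exact h5 a
      · exact h6 a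
  · rintro ⟨hz, hf⟩
    refine ⟨hz, ?_⟩
    by_contra hcon
    obtain ⟨P, hP⟩ := konig (fun z => ¬ Out S (B j) j ν z ∧
      (∀ i < k, i < z.length → gb z i = P0 i) ∧ (6 * y + 6 ≤ z.length → Ac b (gb z) y)) (by
        rintro z w ⟨a1, a2, a3⟩
        have hl : (z ++ w).length = z.length + w.length := List.length_append
        refine ⟨fun ho => a1 (Out_mono ho), ?_, ?_⟩
        · intro i hi hiz
          have := a2 i hi (by omega)
          rw [gb_app hiz] at this
          exact this
        · intro hle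
          exact Ac_congr (fun i hi => gb_app (by omega)) (a3 (by omega))) (by
        intro n
        by_contra hno
        apply hcon
        refine ⟨max n (max k (6 * y + 6)), ⟨by omega, by omega⟩, fun z hz => ?_⟩
        rw [mem_allL] at hz
        by_contra hzz
        rw [not_or, not_or, not_not, not_not] at hzz
        obtain ⟨⟨b1, b2⟩, b3⟩ := hzz
        refine hno ⟨z, by omega, b2, ?_, fun _ => b3⟩
        intro i hi hiz
        have : gb (z.take k) i = gb (rs P0 k) i := congrArg (fun w => gb w i) b1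
        rw [gb_take hi, gb_rs hi] at this
        exact this)
    have hPC : InC S (B j) j ν P := fun k' => (hP k').1
    have hag : ∀ i < k, P i = P0 i := by
      intro i hi
      have := (hP (i + 1)).2.1 i hi (by rw [rs_length]; omega)
      rw [gb_rs (by omega)] at this
      exact this
    have hac : Ac b P y :=
      Ac_congr (fun i hi => gb_rs hi) ((hP (6 * y + 6)).2.2 (by rw [rs_length]))
    rw [← hf] at hac
    exact hk P hPC hag y hz hac

end

end Pool.Agent.helper643_RW
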