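import Pool.Agent.Helper926.RK.RELib

set_option autoImplicit false

/-!
An abstract computable finite injury construction: requirement `j` owns entry `j` of a growing
list; a move of requirement `j` replaces entry `j` and removes the later entries.
-/

namespace Pool.Agent.helper643_RW

open Pool.Agent.Helper926 Pool.Agent.Helper926.RE

section comp

variable {α β γ : Type*} [Primcodable α] [Primcodable β] [Primcodable γ]

@[fun_prop] theorem ctake {f : α → List β} {g : α → ℕ} (hf : Computable f)
    (hg : Computable g) : Computable (fun x => (f x).take (g x)) :=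
  Primrec.list_take.to_comp.comp hg hf

@[fun_prop] theorem cdrop {f : α → List β} {g : α → ℕ} (hf : Computable f)
    (hg : Computable g) : Computable (fun x => (f x).drop (g x)) :=
  Primrec.list_drop.to_comp.comp hg hf

@[fun_prop] theorem cgetD {f : α → List β} {g : α → ℕ} (hf : Computable f)
    (hg : Computable g) (d : β) : Computable (fun x => (f x).getD (g x) d) :=
  (Primrec.list_getD d).to_comp.comp hf hg

@[fun_prop] theorem cogetD {f : α → Option β} (hf : Computable f) (d : β) :
    Computable (fun x => (f x).getD d) :=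
  Computable.option_getD hf (Computable.const d)

@[fun_prop] theorem cxor {f g : α → Bool} (hf : Computable f) (hg : Computable g) :
    Computable (fun x => (f x ^^ g x)) := by
  refine (Computable.cond hf (cnot hg) hg).of_eq fun x => ?_
  cases f x <;> simp

end comp

/-- A sequence which only changes along a well-founded relation is eventually constant. -/
theorem ev_const {β : Type} {R : β → β → Prop} (hR : WellFounded R) (f : ℕ → β)
    (h : ∀ n, f (n + 1) = f n ∨ R (f (n + 1)) (f n)) : ∃ N, ∀ n, N ≤ n → f n = f N := by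
  obtain ⟨m, ⟨N, hN⟩, hmin⟩ := hR.has_min (Set.range f) ⟨f 0, 0, rfl⟩
  refine ⟨N, fun n hn => ?_⟩
  induction n, hn using Nat.le_induction with
  | base => rfl
  | succ n hn ih =>
    rcases h n with h1 | h1
    · rw [h1, ih]
    · exact absurd (by rw [ih, hN] at h1; exact h1) (hmin _ ⟨n + 1, rfl⟩)

section

variable {β : Type} [Primcodable β]

/-- no opportunity of the requirements below `J` is seen at stage `s` in state `S` -/
def Quiet (M : ℕ → List β → ℕ → ℕ → Prop) (s : ℕ) (S : List β) (J : ℕ) : Prop :=
  ∀ j < J, ∀ p < S.length + 1, ∀ w < s, j < p → ¬ M s (S.take p) j w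

/-- one step of the construction -/
def Stp (M : ℕ → List β → ℕ → ℕ → Prop) (ap : List β → ℕ → ℕ → β) (nw : List β → β) (s : ℕ)
    (S S' : List β) : Prop :=
  (∃ j, j < S.length ∧ ∃ p, p < S.length + 1 ∧ ∃ w, w < s ∧ (j < p ∧ M s (S.take p) j w ∧
    Quiet M s S j ∧ S' = S.take j ++ [ap S j w])) ∨
  (Quiet M s S S.length ∧ S' = S ++ [nw S])

omit [Primcodable β] in
theorem Stp_total (M : ℕ → List β → ℕ → ℕ → Prop) (ap : List β → ℕ → ℕ → β) (nw : List β → β)
    (s : ℕ) (S : List β) : ∃ S', Stp M ap nw s S S' := by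
  classical
  by_cases h : Quiet M s S S.length
  · exact ⟨_, Or.inr ⟨h, rfl⟩⟩
  · have h' : ∃ j, j < S.length ∧ ∃ p, p < S.length + 1 ∧ ∃ w, w < s ∧ j < p ∧
        M s (S.take p) j w := by
      unfold Quiet at h
      push Not at h
      obtain ⟨j, hj, p, hp, w, hw, hjp, hm⟩ := h
      exact ⟨j, hj, p, hp, w, hw, hjp, hm⟩
    obtain ⟨hj, p, hp, w, hw, hjp, hm⟩ := Nat.find_spec h'
    refine ⟨_, Or.inl ⟨Nat.find h', hj, p, hp, w, hw, hjp, hm, ?_, rfl⟩⟩
    intro j hj' p' hp' w' hw' hjp' hm'
    exact Nat.find_min h' hj' ⟨hj'.trans hj, p', hp', w', hw', hjp', hm'⟩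

theorem cp_Quiet {α : Type} [Primcodable α] {M : ℕ → List β → ℕ → ℕ → Prop}
    (hM : ComputablePred fun x : ℕ × List β × ℕ × ℕ => M x.1 x.2.1 x.2.2.1 x.2.2.2)
    {s : α → ℕ} {S : α → List β} {J : α → ℕ} (hs : Computable s) (hS : Computable S)
    (hJ : Computable J) : ComputablePred fun a => Quiet M (s a) (S a) (J a) := by
  unfold Quiet
  refine cp_all_lt (p := fun a j => ∀ p < (S a).length + 1, ∀ w < s a, j < p →
    ¬ M (s a) ((S a).take p) j w) ?_ hJ
  refine cp_all_lt (p := fun (x : α × ℕ) p => ∀ w < s x.1, x.2 < p →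
    ¬ M (s x.1) ((S x.1).take p) x.2 w) ?_ (by fun_prop)
  refine cp_all_lt (p := fun (x : (α × ℕ) × ℕ) w => x.1.2 < x.2 →
    ¬ M (s x.1.1) ((S x.1.1).take x.2) x.1.2 w) ?_ (by fun_prop)
  refine cp_imp (cp_lt (by fun_prop) (by fun_prop)) (cp_not ?_)
  exact cp_comp hM (f := fun x : ((α × ℕ) × ℕ) × ℕ =>
    (s x.1.1.1, (S x.1.1.1).take x.1.2, x.1.1.2, x.2)) (by fun_prop)

theorem cp_Stp {M : ℕ → List β → ℕ → ℕ → Prop}
    (hM : ComputablePred fun x : ℕ × List β × ℕ × ℕ => M x.1 x.2.1 x.2.2.1 x.2.2.2)
    {ap : List β → ℕ → ℕ → β} (hap : Computable fun x : List β × ℕ × ℕ => ap x.1 x.2.1 x.2.2)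
    {nw : List β → β} (hnw : Computable nw) :
    ComputablePred fun x : (ℕ × List β) × List β => Stp M ap nw x.1.1 x.1.2 x.2 := by
  unfold Stp
  refine cp_or ?_ (cp_and (cp_Quiet hM (by fun_prop) (by fun_prop) (by fun_prop))
    (cp_eq (by fun_prop) ?_))
  · refine cp_ex_lt (p := fun (x : (ℕ × List β) × List β) j => ∃ p, p < x.1.2.length + 1 ∧
      ∃ w, w < x.1.1 ∧ (j < p ∧ M x.1.1 (x.1.2.take p) j w ∧ Quiet M x.1.1 x.1.2 j ∧
      x.2 = x.1.2.take j ++ [ap x.1.2 j w])) ?_ (by fun_prop)
    refine cp_ex_lt (p := fun (y : ((ℕ × List β) × List β) × ℕ) p =>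
      ∃ w, w < y.1.1.1 ∧ (y.2 < p ∧ M y.1.1.1 (y.1.1.2.take p) y.2 w ∧
      Quiet M y.1.1.1 y.1.1.2 y.2 ∧
      y.1.2 = y.1.1.2.take y.2 ++ [ap y.1.1.2 y.2 w])) ?_ (by fun_prop)
    refine cp_ex_lt (p := fun (z : (((ℕ × List β) × List β) × ℕ) × ℕ) w =>
      (z.1.2 < z.2 ∧ M z.1.1.1.1 (z.1.1.1.2.take z.2) z.1.2 w ∧
      Quiet M z.1.1.1.1 z.1.1.1.2 z.1.2 ∧
      z.1.1.2 = z.1.1.1.2.take z.1.2 ++ [ap z.1.1.1.2 z.1.2 w])) ?_ (by fun_prop)
    refine cp_and (cp_lt (by fun_prop) (by fun_prop)) (cp_and ?_ (cp_and ?_ ?_))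
    · exact cp_comp hM (f := fun z : ((((ℕ × List β) × List β) × ℕ) × ℕ) × ℕ =>
        (z.1.1.1.1.1, z.1.1.1.1.2.take z.1.2, z.1.1.2, z.2)) (by fun_prop)
    · exact cp_Quiet hM (by fun_prop) (by fun_prop) (by fun_prop)
    · refine cp_eq (by fun_prop) ?_
      have h1 : Computable fun z : ((((ℕ × List β) × List β) × ℕ) × ℕ) × ℕ =>
          ap z.1.1.1.1.2 z.1.1.2 z.2 :=
        hap.comp (g := fun z : ((((ℕ × List β) × List β) × ℕ) × ℕ) × ℕ =>
          (z.1.1.1.1.2, z.1.1.2, z.2)) (by fun_prop)
      exact cappend (by fun_prop) (ccons h1 (cconst []))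
  · have h1 : Computable fun x : (ℕ × List β) × List β => nw x.1.2 := hnw.comp (by fun_prop)
    exact cappend (by fun_prop) (ccons h1 (cconst []))

/-- The abstract finite injury theorem. -/
theorem fin_inj (M : ℕ → List β → ℕ → ℕ → Prop)
    (hM : ComputablePred fun x : ℕ × List β × ℕ × ℕ => M x.1 x.2.1 x.2.2.1 x.2.2.2)
    (hmono : ∀ s t L j w, s ≤ t → M s L j w → M t L j w)
    (ap : List β → ℕ → ℕ → β) (hap : Computable fun x : List β × ℕ × ℕ => ap x.1 x.2.1 x.2.2)
    (nw : List β → β) (hnw : Computable nw) (R : β → β → Prop) (hR : WellFounded R)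
    (Inv : List β → Prop) (h0 : Inv []) (hI1 : ∀ S, Inv S → Inv (S ++ [nw S]))
    (hI2 : ∀ s S j p w, Inv S → j < p → p ≤ S.length → M s (S.take p) j w →
      Inv (S.take j ++ [ap S j w]) ∧ ∀ b, S[j]? = some b → R (ap S j w) b) :
    ∃ S : ℕ → List β, Computable S ∧ S 0 = [] ∧ (∀ s, Inv (S s)) ∧
      (∀ s, (∃ t j p w, j < p ∧ p ≤ (S s).length ∧ M t ((S s).take p) j w ∧
        S (s + 1) = (S s).take j ++ [ap (S s) j w]) ∨ S (s + 1) = S s ++ [nw (S s)]) ∧
      ∃ B : ℕ → β, (∀ p, ∃ s0, ∀ s, s0 ≤ s → p ≤ (S s).length ∧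
        (S s).take p = (List.range p).map B) ∧
        ∀ j p w s, j < p → ¬ M s ((List.range p).map B) j w := by
  classical
  obtain ⟨g, hg, hgs⟩ := exists_selector (r := fun (a : ℕ × List β) S' => Stp M ap nw a.1 a.2 S')
    (cp_Stp hM hap hnw).to_re (fun a => Stp_total M ap nw a.1 a.2)
  let S : ℕ → List β := fun n => Nat.rec [] (fun m l => g (m, l)) n
  have hSc : Computable S := by
    have := Computable.nat_rec (f := fun n : ℕ => n) (g := fun _ : ℕ => ([] : List β))
      (h := fun (_ : ℕ) (y : ℕ × List β) => g (y.1, y.2)) Computable.id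
      (Computable.const []) (by
        unfold Computable₂
        exact hg.comp (by fun_prop))
    exact this
  have hstep : ∀ s, Stp M ap nw s (S s) (S (s + 1)) := fun s => hgs (s, S s)
  have hInv : ∀ s, Inv (S s) := by
    intro s
    induction s with
    | zero => exact h0
    | succ s ih =>
      rcases hstep s with ⟨j, hj, p, hp, w, hw, hjp, hm, -, he⟩ | ⟨-, he⟩
      · rw [he]; exact (hI2 s _ j p w ih hjp (by omega) hm).1
      · rw [he]; exact hI1 _ ih
  -- stabilisation
  have hstab : ∀ J, ∃ s0, ∀ s, s0 ≤ s → J ≤ (S s).length ∧ (S s).take J = (S s0).take J := by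
    intro J
    induction J with
    | zero => exact ⟨0, fun s _ => ⟨by simp, by simp⟩⟩
    | succ J ih =>
      obtain ⟨s0, hs0⟩ := ih
      have hirr : ∀ b, ¬ R b b := fun b => hR.irrefl.irrefl b
      -- moves below J do not happen after s0
      have hno : ∀ s, s0 ≤ s → ∀ j b b', j < J → (S s)[j]? = some b →
          (S (s + 1))[j]? = some b' → ¬ R b' b := by
        intro s hs j b b' hj hb hb' hr
        have e1 := (hs0 s hs).2
        have e2 := (hs0 (s + 1) (by omega)).2
        have e3 : (S s)[j]? = (S (s + 1))[j]? := by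
          have a1 : ((S s).take J)[j]? = (S s)[j]? := by rw [List.getElem?_take]; simp [hj]
          have a2 : ((S (s + 1)).take J)[j]? = (S (s + 1))[j]? := by
            rw [List.getElem?_take]; simp [hj]
          rw [← a1, ← a2, e1, e2]
        rw [hb, hb'] at e3
        injection e3 with e3
        subst e3
        exact hirr _ hr
      -- length eventually exceeds J
      have hlen1 : ∃ s1, s0 ≤ s1 ∧ J < (S s1).length := by
        by_contra hcon
        push Not at hcon
        have hJ0 := hcon s0 le_rfl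
        have hJ0' := (hs0 s0 le_rfl).1
        have hJ1 := hcon (s0 + 1) (by omega)
        rcases hstep s0 with ⟨j, hj, p, hp, w, hw, hjp, hm, -, he⟩ | ⟨-, he⟩
        · refine hno s0 le_rfl j (S s0)[j] (ap (S s0) j w) (by omega) (by simp [hj]) ?_
            ((hI2 s0 _ j p w (hInv s0) hjp (by omega) hm).2 _ (by simp [hj]))
          rw [he, List.getElem?_append_right (by simp)]
          simp [Nat.min_eq_left hj.le]
        · rw [he] at hJ1
          simp at hJ1
          omega
      obtain ⟨s1, hs1, hl1⟩ := hlen1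
      have hlen : ∀ s, s1 ≤ s → J < (S s).length := by
        intro s hs
        induction s, hs using Nat.le_induction with
        | base => exact hl1
        | succ s hs ihs =>
          rcases hstep s with ⟨j, hj, p, hp, w, hw, hjp, hm, -, he⟩ | ⟨-, he⟩
          · by_cases hjJ : j < J
            · exfalso
              refine hno s (by omega) j (S s)[j] (ap (S s) j w) hjJ (by simp [hj]) ?_
                ((hI2 s _ j p w (hInv s) hjp (by omega) hm).2 _ (by simp [hj]))
              rw [he, List.getElem?_append_right (by simp)]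
              simp [Nat.min_eq_left hj.le]
            · rw [he]; simp; omega
          · rw [he]; simp; omega
      -- entry J changes along R
      let f : ℕ → β := fun n => (S (s1 + n))[J]'(hlen _ (by omega))
      have hf : ∀ n, f (n + 1) = f n ∨ R (f (n + 1)) (f n) := by
        intro n
        have hsn : s1 ≤ s1 + n := by omega
        have e4 : (S (s1 + n))[J]? = some (f n) := by simp [f, hlen _ hsn]
        have e5 : (S (s1 + n + 1))[J]? = some (f (n + 1)) := by
          have := hlen (s1 + (n + 1)) (by omega)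
          simp only [f]
          rw [List.getElem?_eq_getElem (by simpa [add_assoc] using this)]
          rfl
        rcases hstep (s1 + n) with ⟨j, hj, p, hp, w, hw, hjp, hm, -, he⟩ | ⟨-, he⟩
        · rcases lt_trichotomy j J with hjJ | hjJ | hjJ
          · exfalso
            refine hno (s1 + n) (by omega) j (S (s1 + n))[j] (ap (S (s1 + n)) j w) hjJ
              (by simp [hj]) ?_
              ((hI2 _ _ j p w (hInv _) hjp (by omega) hm).2 _ (by simp [hj]))
            rw [he, List.getElem?_append_right (by simp)]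
            simp [Nat.min_eq_left hj.le]
          · subst hjJ
            right
            have e6 : (S (s1 + n + 1))[j]? = some (ap (S (s1 + n)) j w) := by
              rw [he, List.getElem?_append_right (by simp)]
              simp [Nat.min_eq_left hj.le]
            rw [e5] at e6
            injection e6 with e6
            rw [e6]
            exact (hI2 _ _ j p w (hInv _) hjp (by omega) hm).2 _ e4
          · left
            rw [he, List.getElem?_append_left (by simp; omega), List.getElem?_take] at e5
            simp only [hjJ, if_true] at e5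
            rw [e4] at e5
            injection e5 with e5
            exact e5.symm
        · left
          rw [he, List.getElem?_append_left (hlen _ hsn), e4] at e5
          injection e5 with e5
          exact e5.symm
      obtain ⟨N, hN⟩ := ev_const hR f hf
      refine ⟨s1 + N, fun s hs => ⟨hlen s (by omega), ?_⟩⟩
      obtain ⟨n, rfl⟩ := Nat.exists_eq_add_of_le (show s1 ≤ s by omega)
      have h7 := hN n (by omega)
      have h8 : (S (s1 + n)).take J = (S (s1 + N)).take J := by
        rw [(hs0 _ (by omega)).2, (hs0 (s1 + N) (by omega)).2]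
      have h9 : (S (s1 + n))[J]? = (S (s1 + N))[J]? := by
        have a1 : (S (s1 + n))[J]? = some (f n) := by simp [f, hlen _ (show s1 ≤ s1 + n by omega)]
        have a2 : (S (s1 + N))[J]? = some (f N) := by simp [f, hlen _ (show s1 ≤ s1 + N by omega)]
        rw [a1, a2, h7]
      rw [List.take_add_one, List.take_add_one, h8, h9]
  choose st hst using hstab
  let B : ℕ → β := fun n => ((S (st (n + 1)))[n]'(by have := (hst (n + 1) _ le_rfl).1; omega))
  have hB : ∀ p, ∃ s0, ∀ s, s0 ≤ s → p ≤ (S s).length ∧ (S s).take p = (List.range p).map B := by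
    intro p
    refine ⟨st p, fun s hs => ⟨(hst p s hs).1, ?_⟩⟩
    apply List.ext_getElem?
    intro n
    by_cases hn : n < p
    · have hl := (hst p s hs).1
      have e1 : ((S s).take p)[n]? = (S s)[n]? := by rw [List.getElem?_take]; simp [hn]
      -- compare with a late common stage
      let t := max s (st (n + 1))
      have e2 : (S s)[n]? = (S t)[n]? := by
        have a1 : ((S t).take p)[n]? = (S t)[n]? := by rw [List.getElem?_take]; simp [hn]
        rw [← e1, ← a1, (hst p s hs).2, (hst p t (hs.trans (le_max_left _ _))).2]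
      have e3 : (S t)[n]? = (S (st (n + 1)))[n]? := by
        have a1 : ((S t).take (n + 1))[n]? = (S t)[n]? := by rw [List.getElem?_take]; simp
        have a2 : ((S (st (n + 1))).take (n + 1))[n]? = (S (st (n + 1)))[n]? := by
          rw [List.getElem?_take]; simp
        rw [← a1, ← a2, (hst (n + 1) t (le_max_right _ _)).2]
      have e4 : (S (st (n + 1)))[n]? = some (B n) := by
        have := (hst (n + 1) _ le_rfl).1
        simp only [B]
        exact List.getElem?_eq_getElem (by omega)
      rw [e1, e2, e3, e4]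
      simp [hn]
    · have hl := (hst p s hs).1
      rw [List.getElem?_eq_none (by simp; omega), List.getElem?_eq_none (by simp; omega)]
  refine ⟨S, hSc, rfl, hInv, ?_, B, hB, ?_⟩
  · intro s
    rcases hstep s with ⟨j, hj, p, hp, w, hw, hjp, hm, -, he⟩ | ⟨-, he⟩
    · exact Or.inl ⟨s, j, p, w, hjp, by omega, hm, he⟩
    · exact Or.inr he
  · intro j p w s hjp hm
    obtain ⟨s0, hs0⟩ := hB p
    let t := max (max s s0) (w + 1)
    have ht0 : s0 ≤ t := (le_max_right s s0).trans (le_max_left _ _)
    have hts : s ≤ t := (le_max_left s s0).trans (le_max_left _ _)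
    have htw : w < t := Nat.lt_of_lt_of_le (Nat.lt_succ_self w) (le_max_right _ _)
    have h1 := hs0 t ht0
    have hm' : M t ((S t).take p) j w := by rw [h1.2]; exact hmono _ _ _ _ _ hts hm
    have h2 := hs0 (t + 1) (by omega)
    rcases hstep t with ⟨j', hj', p', hp', w', hw', hjp', hmm, hq, he⟩ | ⟨hq, he⟩
    · have hle : j' ≤ j := by
        by_contra hcon
        push Not at hcon
        exact hq j hcon p (by omega) w htw hjp hm'
      have e1 : (S t)[j']? = (S (t + 1))[j']? := by
        have a1 : ((S t).take p)[j']? = (S t)[j']? := by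
          rw [List.getElem?_take]; simp [show j' < p by omega]
        have a2 : ((S (t + 1)).take p)[j']? = (S (t + 1))[j']? := by
          rw [List.getElem?_take]; simp [show j' < p by omega]
        rw [← a1, ← a2, h1.2, h2.2]
      have e2 : (S (t + 1))[j']? = some (ap (S t) j' w') := by
        rw [he, List.getElem?_append_right (by simp)]
        simp [Nat.min_eq_left hj'.le]
      have hr := (hI2 _ _ j' p' w' (hInv t) hjp' (by omega) hmm).2 _ (e1.trans e2)
      exact hR.irrefl.irrefl _ hr
    · exact hq j (by omega) p (by omega) w htw hjp hm'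

end

end Pool.Agent.helper643_RW
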