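import Pool.Agent.helper643_RW.Def

set_option autoImplicit false

/-!
The invariants of the construction.
-/

namespace Pool.Agent.helper643_RW

open Pool.Agent.Helper926 Pool.Agent.Helper926.RE

theorem mem_allL {n : ℕ} {g : List Bool} : g ∈ allL n ↔ g.length = n := by
  induction n generalizing g with
  | zero =>
    show g ∈ [[]] ↔ _
    simp
  | succ n ih =>
    show g ∈ (allL n).flatMap (fun l => [l ++ [false], l ++ [true]]) ↔ _
    rw [List.mem_flatMap]
    constructor
    · rintro ⟨l, hl, h⟩
      rw [ih] at hl
      simp only [List.mem_cons, List.not_mem_nil, or_false] at h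
      rcases h with rfl | rfl <;> simp [hl]
    · intro h
      rcases List.eq_nil_or_concat g with rfl | ⟨l, b, rfl⟩
      · simp at h
      · refine ⟨l, ih.2 (by simpa using h), ?_⟩
        cases b <;> simp

theorem mem_allTr {r : ℕ} {c : Bool} {l : ℕ} {v : Bool} (h : l < r) : (c, l, v) ∈ allTr r := by
  unfold allTr
  rw [List.mem_flatMap]
  refine ⟨l, List.mem_range.2 h, ?_⟩
  cases c <;> cases v <;> simp

theorem Vs_pre {s e l : ℕ} {σ τ : List Bool} {n : ℕ} (h : Vs s e l σ n) (hp : σ <+: τ) :
    Vs s e l τ n := by
  obtain ⟨k, hk, h⟩ := h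
  obtain ⟨ρ, rfl⟩ := hp
  refine ⟨k, by simp; omega, ?_⟩
  rw [List.take_append_of_le_length (by omega)]
  exact h

theorem Vs_mono {s t e l : ℕ} {σ : List Bool} {n : ℕ} (hst : s ≤ t) (h : Vs s e l σ n) :
    Vs t e l σ n := by
  obtain ⟨k, hk, h⟩ := h
  exact ⟨k, hk, wst_mono hst h⟩

theorem Rf_mono {s t e : ℕ} {g : List Bool} (hst : s ≤ t) (h : Rf s e g) : Rf t e g := by
  obtain ⟨k, hk, h⟩ := h
  exact ⟨k, hk, wst_mono hst h⟩

theorem Opp_mono {s t : ℕ} {L : List Block} {j : ℕ} {w : Wit} (hst : s ≤ t)
    (h : Opp s L j w) : Opp t L j w := by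
  obtain ⟨h1, h2, h3, h4, h5, h6, h7, h8⟩ := h
  refine ⟨h1, h2, h3, h4, h5, h6, ?_, ?_⟩
  · intro x hx
    obtain ⟨a1, a2, a3, a4, a5, a6, a7, a8⟩ := h7 x hx
    exact ⟨a1, a2, a3, a4, Vs_mono hst a5, wst_mono hst a6, a7, a8⟩
  · intro g hg
    rcases h8 g hg with a | a
    · exact Or.inl (Rf_mono hst a)
    · exact Or.inr a

theorem gB_eq {S : List Block} {j : ℕ} {b : Block} (h : S[j]? = some b) : gB S j = b := by
  unfold gB
  rw [List.getD_eq_getElem?_getD, h]
  rfl

theorem gB_take {S : List Block} {j p : ℕ} (h : j < p) : gB (S.take p) j = gB S j := by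
  unfold gB
  rw [List.getD_eq_getElem?_getD, List.getD_eq_getElem?_getD, List.getElem?_take]
  simp [h]

theorem gp_append_left {l m : List Pt} {i : ℕ} (h : i < l.length) : gp (l ++ m) i = gp l i := by
  unfold gp
  rw [List.getD_eq_getElem?_getD, List.getD_eq_getElem?_getD, List.getElem?_append_left h]

theorem gp_append_right {l m : List Pt} {i : ℕ} : gp (l ++ m) (l.length + i) = gp m i := by
  unfold gp
  rw [List.getD_eq_getElem?_getD, List.getD_eq_getElem?_getD,
    List.getElem?_append_right (by omega)]
  congr 2
  omega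

theorem gb_take {l : List Bool} {i k : ℕ} (h : i < k) : gb (l.take k) i = gb l i := by
  unfold gb
  rw [List.getD_eq_getElem?_getD, List.getD_eq_getElem?_getD, List.getElem?_take]
  simp [h]

theorem gb_map {f : ℕ → Bool} {u i : ℕ} (h : i < u) : gb ((List.range u).map f) i = f i := by
  unfold gb
  rw [List.getD_eq_getElem?_getD]
  simp [h]

theorem hd_child_same {ν : Node} {t : Hit} : hd t.1 (child ν t) = t.2.1 := by
  obtain ⟨c, ρ, l, n, R⟩ := t
  cases c <;> rfl

theorem hd_child_ne {ν : Node} {t : Hit} {c : Bool} (h : c ≠ t.1) :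
    hd c (child ν t) = hd c ν := by
  obtain ⟨c', ρ, l, n, R⟩ := t
  cases c <;> cases c' <;> first | rfl | exact absurd rfl h

/-- invariant of block number `j` with start `a` -/
structure PB (j a : ℕ) (b : Block) : Prop where
  st : b.1 = a
  pos : 0 < b.2.1.length
  hit : ∀ ν ∈ b.2.2, ∀ c l v, l < rI j → (c, l, v) ∈ ν.2.2 ∨
    ∃ n s, b.1 ≤ n ∧ n < b.1 + b.2.1.length ∧ Vs s (eI j) l (hd c ν) n ∧
      col c (gp b.2.1 (n - b.1)) = v
  cov : ∀ f : ℕ → Bool, (∀ n s, wst (ℕ × Bool) (gI j) s (n, !f n) = false) →
    ∃ ν ∈ b.2.2, ∀ c, ∀ i < (hd c ν).length, gb (hd c ν) i = true → f i = c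
  adm : ∀ ν ∈ b.2.2, ∀ c, hd c ν = [] ∨
    ∃ s, wst (Bool × List Bool) (aI j) s (c, hd c ν) = true

/-- the invariant of states -/
def Inv (S : List Block) : Prop := ∀ j b, S[j]? = some b → PB j (fl (S.take j)).length b

theorem Inv_nil : Inv [] := fun j b h => by simp at h

theorem hd_root {c : Bool} {R : List Tri} : hd c ([], [], R) = [] := by
  cases c <;> rfl

theorem Inv_new (S : List Block) (h : Inv S) : Inv (S ++ [nwB S]) := by
  intro j b hj
  by_cases hjl : j < S.length
  · rw [List.getElem?_append_left hjl] at hj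
    rw [List.take_append_of_le_length hjl.le]
    exact h j b hj
  · rw [List.getElem?_append_right (by omega)] at hj
    have hj0 : j = S.length := by
      by_contra hne
      rw [List.getElem?_eq_none (by simp; omega)] at hj
      simp at hj
    subst hj0
    simp only [Nat.sub_self, List.length_cons, List.length_nil, Nat.zero_add, Nat.lt_add_one,
      List.getElem?_eq_getElem, List.getElem_cons_zero, Option.some.injEq] at hj
    subst hj
    rw [List.take_left']
    · refine ⟨rfl, by simp [nwB], ?_, ?_, ?_⟩
      · intro ν hν c l v hl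
        simp only [nwB, List.mem_singleton] at hν
        subst hν
        exact Or.inl (mem_allTr hl)
      · intro f _
        refine ⟨([], [], allTr (rI S.length)), by simp [nwB], ?_⟩
        intro c i hi
        rw [hd_root] at hi
        simp at hi
      · intro ν hν c
        simp only [nwB, List.mem_singleton] at hν
        subst hν
        exact Or.inl hd_root
    · rfl

theorem fl_append (S T : List Block) : fl (S ++ T) = fl S ++ fl T := by
  unfold fl; simp

theorem Inv_ap (S : List Block) (s j p : ℕ) (w : Wit) (h : Inv S) (hjp : j < p)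
    (hp : p ≤ S.length) (ho : Opp s (S.take p) j w) : Inv (S.take j ++ [apB S j w]) := by
  obtain ⟨h1, h2, h3, h4, h5, h6, h7, h8⟩ := ho
  rw [gB_take hjp] at h4 h5 h6 h7 h8
  have hjl : j < S.length := by omega
  have hb : S[j]? = some (gB S j) := by
    have : S[j]? = some S[j] := by simp [hjl]
    rw [this, gB_eq this]
  have hP := h j _ hb
  set b := gB S j with hbdef
  have hylen : b.2.1.length ≤ w.1.length := by
    rw [h3]
    have e1 : (S.take p).drop j = b :: (S.take p).drop (j + 1) := by
      rw [List.drop_eq_getElem_cons (by simp; omega)]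
      congr 1
      have e2 : (S.take p)[j]? = some b := by rw [List.getElem?_take]; simp [hjp, hb]
      rw [List.getElem?_eq_getElem (by simp; omega)] at e2
      exact Option.some.inj e2
    rw [e1]
    simp [fl]
  intro i b' hi
  by_cases hij : i < j
  · rw [List.getElem?_append_left (by simp; omega), List.getElem?_take] at hi
    simp only [hij, if_true] at hi
    rw [List.take_append_of_le_length (by simp; omega), List.take_take,
      Nat.min_eq_left (by omega)]
    exact h i b' hi
  · rw [List.getElem?_append_right (by simp; omega)] at hi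
    have hi0 : i = j := by
      by_contra hne
      rw [List.getElem?_eq_none (by simp; omega)] at hi
      simp at hi
    subst hi0
    have hi' : apB S i w = b' := by
      simpa [Nat.min_eq_left hjl.le] using hi
    subst hi'
    rw [List.take_left' (by simp; omega)]
    have hcol : ∀ m, m < w.1.length → gp (w.1 ++ fl (S.drop w.2.1)) m = gp w.1 m :=
      fun m hm => gp_append_left hm
    refine ⟨hP.st, ?_, ?_, ?_, ?_⟩
    · show 0 < (w.1 ++ fl (S.drop w.2.1)).length
      have := hP.pos
      simp; omega
    · intro ν hν c l v hl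
      have hν' : ν ∈ b.2.2 ∨ ∃ t ∈ w.2.2.2.2, ν = child (gN b.2.2 w.2.2.1) t := by
        simp only [apB, List.mem_append, List.mem_map] at hν
        rcases hν with (hν | hν) | ⟨t, ht, rfl⟩
        · exact Or.inl (List.mem_of_mem_take hν)
        · exact Or.inl (List.mem_of_mem_drop hν)
        · exact Or.inr ⟨t, ht, rfl⟩
      have hold : ∀ ν ∈ b.2.2, ∀ c l v, l < rI i → (c, l, v) ∈ ν.2.2 ∨
          ∃ n s, b.1 ≤ n ∧ n < b.1 + (w.1 ++ fl (S.drop w.2.1)).length ∧
            Vs s (eI i) l (hd c ν) n ∧
            col c (gp (w.1 ++ fl (S.drop w.2.1)) (n - b.1)) = v := by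
        intro ν hν c l v hl
        rcases hP.hit ν hν c l v hl with a | ⟨n, s', a1, a2, a3, a4⟩
        · exact Or.inl a
        · refine Or.inr ⟨n, s', a1, by simp; omega, a3, ?_⟩
          rw [hcol _ (by omega), h4 _ (by omega)]
          exact a4
      rcases hν' with hν' | ⟨t, ht, rfl⟩
      · exact hold ν hν' c l v hl
      · by_cases hR : (c, l, v) ∈ (child (gN b.2.2 w.2.2.1) t).2.2
        · exact Or.inl hR
        · right
          obtain ⟨a1, a2, a3, a4, a5, a6, a7, a8⟩ := h7 t ht
          have hkm : gN b.2.2 w.2.2.1 ∈ b.2.2 := by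
            unfold gN
            rw [List.getD_eq_getElem?_getD, List.getElem?_eq_getElem h6]
            exact List.getElem_mem _
          by_cases hmem : (c, l, v) ∈ (gN b.2.2 w.2.2.1).2.2
          · rcases a8 _ hmem with e | e
            · have e1 : c = t.1 := congrArg Prod.fst e
              have e2 : l = t.2.2.1 := congrArg (fun x => x.2.1) e
              have e3 : v = col t.1 (gp w.1 (t.2.2.2.1 - b.1)) := congrArg (fun x => x.2.2) e
              subst e1 e2 e3
              refine ⟨t.2.2.2.1, s, a3, ?_, ?_, ?_⟩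
              · show t.2.2.2.1 < b.1 + (w.1 ++ fl (S.drop w.2.1)).length
                simp; omega
              · rw [hd_child_same]; exact a5
              · show col t.1 (gp (w.1 ++ fl (S.drop w.2.1)) (t.2.2.2.1 - b.1)) = _
                rw [hcol _ (by omega)]
            · exact absurd e hR
          · rcases hold _ hkm c l v hl with a | ⟨n, s', b1, b2, b3, b4⟩
            · exact absurd a hmem
            · refine ⟨n, s', b1, b2, ?_, b4⟩
              by_cases hc : c = t.1
              · subst hc
                rw [hd_child_same]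
                refine Vs_pre b3 ?_
                rw [a2]
                exact List.take_prefix _ _
              · rw [hd_child_ne hc]; exact b3
    · intro f hf
      obtain ⟨ν, hν, hνf⟩ := hP.cov f hf
      obtain ⟨k, hk, rfl⟩ := List.getElem_of_mem hν
      by_cases hkw : k = w.2.2.1
      · have hgn : gN b.2.2 w.2.2.1 = b.2.2[k] := by
          unfold gN
          rw [List.getD_eq_getElem?_getD, ← hkw, List.getElem?_eq_getElem hk]
          rfl
        rcases h8 ((List.range w.2.2.2.1).map f) (mem_allL.2 (by simp)) with a | ⟨t, ht, a⟩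
        · exfalso
          obtain ⟨n, hn, a⟩ := a
          rw [List.length_map, List.length_range] at hn
          rw [gb_map hn, hf] at a
          exact absurd a (by simp)
        · refine ⟨child (gN b.2.2 w.2.2.1) t, ?_, ?_⟩
          · simp only [apB, List.mem_append, List.mem_map]
            exact Or.inr ⟨t, ht, rfl⟩
          · intro c m hm hg
            by_cases hc : c = t.1
            · subst hc
              rw [hd_child_same] at hm hg
              obtain ⟨a1, a2, -⟩ := h7 t ht
              by_cases hlt : m < (hd t.1 (gN b.2.2 w.2.2.1)).length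
              · refine hνf t.1 m ?_ ?_
                · rw [← hgn]; exact hlt
                · rw [← hgn, a2, gb_take hlt]; exact hg
              · have := a m hm (by omega) hg
                rw [gb_map (by omega)] at this
                exact this
            · rw [hd_child_ne hc, hgn] at hm hg
              exact hνf c m hm hg
      · refine ⟨b.2.2[k], ?_, hνf⟩
        simp only [apB, List.mem_append, ← hbdef]
        left
        by_cases hlt : k < w.2.2.1
        · left
          rw [List.mem_take_iff_getElem]
          exact ⟨k, by omega, rfl⟩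
        · right
          rw [List.mem_drop_iff_getElem]
          refine ⟨k - (w.2.2.1 + 1), by omega, ?_⟩
          congr 1
          omega
    · intro ν hν c
      simp only [apB, List.mem_append, List.mem_map] at hν
      rcases hν with (hν | hν) | ⟨t, ht, rfl⟩
      · exact hP.adm ν (List.mem_of_mem_take hν) c
      · exact hP.adm ν (List.mem_of_mem_drop hν) c
      · obtain ⟨a1, a2, a3, a4, a5, a6, a7, a8⟩ := h7 t ht
        by_cases hc : c = t.1
        · subst hc
          rw [hd_child_same]
          exact Or.inr ⟨s, a6⟩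
        · rw [hd_child_ne hc]
          refine hP.adm _ ?_ c
          unfold gN
          rw [List.getD_eq_getElem?_getD, List.getElem?_eq_getElem h6]
          exact List.getElem_mem _

/-- rank relation of blocks -/
def RB (b' b : Block) : Prop :=
  Multiset.IsDershowitzMannaLT (((b'.2.2.map fun ν => ν.2.2.length) : List ℕ) : Multiset ℕ)
    (((b.2.2.map fun ν => ν.2.2.length) : List ℕ) : Multiset ℕ)

theorem RB_wf : WellFounded RB := by
  have h : RB = InvImage (Multiset.IsDershowitzMannaLT : Multiset ℕ → Multiset ℕ → Prop)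
      (fun b : Block => (((b.2.2.map fun ν : Node => ν.2.2.length) : List ℕ) : Multiset ℕ)) := rfl
  rw [h]
  exact InvImage.wf _ Multiset.wellFounded_isDershowitzMannaLT

theorem RB_ap (S : List Block) (s j p : ℕ) (w : Wit) (hjp : j < p)
    (ho : Opp s (S.take p) j w) (b : Block) (hb : S[j]? = some b) : RB (apB S j w) b := by
  obtain ⟨h1, h2, h3, h4, h5, h6, h7, h8⟩ := ho
  rw [gB_take hjp, gB_eq hb] at h4 h5 h6 h7 h8
  unfold RB
  rw [show (apB S j w).2.2 = ((b.2.2.take w.2.2.1 ++ b.2.2.drop (w.2.2.1 + 1)) ++
      w.2.2.2.2.map (child (gN b.2.2 w.2.2.1))) from by rw [apB, gB_eq hb]]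
  refine ⟨(((b.2.2.take w.2.2.1 ++ b.2.2.drop (w.2.2.1 + 1)).map fun ν => ν.2.2.length :
      List ℕ) : Multiset ℕ), (((w.2.2.2.2.map (child (gN b.2.2 w.2.2.1))).map
      fun ν => ν.2.2.length : List ℕ) : Multiset ℕ), {(gN b.2.2 w.2.2.1).2.2.length},
      by simp, ?_, ?_, ?_⟩
  · rw [List.map_append, Multiset.coe_add]
  · rw [show ({(gN b.2.2 w.2.2.1).2.2.length} : Multiset ℕ) =
      (([(gN b.2.2 w.2.2.1).2.2.length] : List ℕ) : Multiset ℕ) from rfl, Multiset.coe_add,
      Multiset.coe_eq_coe]
    have hgn : gN b.2.2 w.2.2.1 = b.2.2[w.2.2.1] := by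
      unfold gN
      rw [List.getD_eq_getElem?_getD, List.getElem?_eq_getElem h6]
      rfl
    rw [hgn]
    have e1 : b.2.2 = b.2.2.take w.2.2.1 ++ (b.2.2[w.2.2.1] :: b.2.2.drop (w.2.2.1 + 1)) := by
      rw [List.getElem_cons_drop, List.take_append_drop]
    conv_lhs => rw [e1]
    rw [List.map_append, List.map_append, List.map_cons, List.append_assoc]
    refine List.Perm.append_left _ ?_
    exact (List.perm_append_singleton _ _).symm
  · intro y hy
    rw [Multiset.mem_coe, List.map_map, List.mem_map] at hy
    obtain ⟨t, ht, rfl⟩ := hy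
    obtain ⟨a1, a2, a3, a4, a5, a6, a7, a8⟩ := h7 t ht
    exact ⟨_, Multiset.mem_singleton_self _, a7⟩

end Pool.Agent.helper643_RW
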