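import Pool.Agent.helper643_RW.Sat

set_option autoImplicit false

/-!
Paths through the trees, and the main lemma about a single block.
-/

namespace Pool.Agent.helper643_RW

open Pool.Agent.Helper926 Pool.Agent.Helper926.RE

section

variable {S : ℕ → List Block} {B : ℕ → Block}

theorem Con.le_st (h : Con S B) (i : ℕ) : i ≤ (B i).1 := by
  rw [(h.PB i).st]
  have h1 : ((List.range i).map B).length ≤ (fl ((List.range i).map B)).length := by
    apply fl_len
    intro b hb
    rw [List.mem_map] at hb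
    obtain ⟨k, _, rfl⟩ := hb
    exact (h.PB k).pos
  simpa using h1

theorem Con.st_add (h : Con S B) {i j : ℕ} (hij : i < j) :
    (B i).1 + (B i).2.1.length ≤ (B j).1 := by
  have := fl_take_le (rB_get (B := B) hij)
  rw [rB_take hij.le] at this
  rw [(h.PB i).st, (h.PB j).st]
  exact this

theorem Con.lk_lim (h : Con S B) {s : ℕ} {c : Bool} {n n' : ℕ} {v : Bool}
    (hl : LkS (S s) c n n' v) : ∃ i, Lk (B i) c n n' v := by
  obtain ⟨s0, h0⟩ := h.lim (n + 1)
  have h1 := h.lk_mono (le_max_left s s0) hl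
  obtain ⟨a, e⟩ := h0 (max s s0) (le_max_right _ _)
  obtain ⟨b, hb, u, u', hu, hu', hn, hn', hv⟩ := h1
  obtain ⟨i, hi, rfl⟩ := List.getElem_of_mem hb
  set T := S (max s s0) with hT
  have hbi : T[i]? = some T[i] := by simp [hi]
  have hst : T[i].1 = (fl (T.take i)).length := (h.inv (max s s0) i _ hbi).st
  have hn2 : n = T[i].1 + u := hn
  have hin : i < n + 1 := by
    by_contra hc
    have h2 : (T.take (n + 1)).length ≤ (fl (T.take (n + 1))).length := by
      rw [e]
      apply fl_len
      intro b hb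
      rw [List.mem_map] at hb
      obtain ⟨k, _, rfl⟩ := hb
      exact (h.PB k).pos
    have h3 : (fl (T.take (n + 1))).length ≤ (fl (T.take i)).length := by
      have h4 : T.take (n + 1) = (T.take i).take (n + 1) := by
        rw [List.take_take, Nat.min_eq_left (by omega)]
      conv_rhs => rw [← List.take_append_drop (n + 1) (T.take i)]
      rw [← h4, fl_append, List.length_append]
      omega
    rw [List.length_take, Nat.min_eq_left a] at h2
    omega
  have h5 : (T.take (n + 1))[i]? = some T[i] := by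
    rw [List.getElem?_take]
    simp [hin]
  rw [e, rB_get hin] at h5
  have h6 : B i = T[i] := Option.some.inj h5
  exact ⟨i, by rw [h6]; exact ⟨u, u', hu, hu', hn, hn', hv⟩⟩

theorem Con.Pth_of (h : Con S B) {c : Bool} {x : ℕ → Bool}
    (hx : ∀ i, ∀ u < (B i).2.1.length, ∀ v < (B i).2.1.length,
      (x ((B i).1 + u) ^^ x ((B i).1 + v)) =
        (col c (gp (B i).2.1 u) ^^ col c (gp (B i).2.1 v))) : Pth S c x := by
  intro s n n' v hl
  obtain ⟨i, u, u', hu, hu', rfl, rfl, rfl⟩ := h.lk_lim hl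
  exact hx i u hu u' hu'

/-- the true path -/
def tp (B : ℕ → Block) (c : Bool) (n : ℕ) : Bool :=
  col c (gp (fl ((List.range (n + 1)).map B)) n)

theorem Con.tp_eq (h : Con S B) (c : Bool) (i : ℕ) {u : ℕ} (hu : u < (B i).2.1.length) :
    tp B c ((B i).1 + u) = col c (gp (B i).2.1 u) := by
  unfold tp
  have h1 := h.le_st i
  have h2 := gp_fl (rB_get (B := B) (p := (B i).1 + u + 1) (i := i) (by omega)) hu
  rw [rB_take (by omega), ← (h.PB i).st] at h2
  rw [h2]

theorem Con.tp_pth (h : Con S B) (c : Bool) : Pth S c (tp B c) := by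
  apply h.Pth_of
  intro i u hu v hv
  rw [h.tp_eq c i hu, h.tp_eq c i hv]

/-- flip the path beyond `m` -/
def fx (m : ℕ) (b : Bool) (x : ℕ → Bool) (n : ℕ) : Bool := x n ^^ (b && decide (m ≤ n))

theorem Con.fx_pth (h : Con S B) (c : Bool) (x : ℕ → Bool) (hx : Pth S c x) (j : ℕ) (b : Bool) :
    Pth S c (fx ((B j).1 + (B j).2.1.length) b x) := by
  apply h.Pth_of
  intro i u hu v hv
  unfold fx
  have h1 := h.B_link hx hu hv
  rcases Nat.lt_or_ge j i with hij | hij
  · have h2 := h.st_add hij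
    have h3 : (B j).1 + (B j).2.1.length ≤ (B i).1 + u := by omega
    have h4 : (B j).1 + (B j).2.1.length ≤ (B i).1 + v := by omega
    rw [← h1]
    simp only [h3, h4, decide_true, Bool.and_true]
    cases b <;> simp
  · have h2 : (B i).1 + (B i).2.1.length ≤ (B j).1 + (B j).2.1.length := by
      rcases Nat.lt_or_ge i j with hij' | hij'
      · have := h.st_add hij'
        omega
      · have : i = j := by omega
        subst this
        exact le_rfl
    have h3 : ¬ (B j).1 + (B j).2.1.length ≤ (B i).1 + u := by omega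
    have h4 : ¬ (B j).1 + (B j).2.1.length ≤ (B i).1 + v := by omega
    rw [← h1]
    simp [h3, h4]

theorem fx_lt {m : ℕ} {b : Bool} {x : ℕ → Bool} {n : ℕ} (hn : n < m) : fx m b x n = x n := by
  unfold fx
  have : ¬ m ≤ n := by omega
  simp [this]

theorem fx_ne {m : ℕ} {b b' : Bool} {x : ℕ → Bool} {n : ℕ} (hn : m ≤ n) (hb : b ≠ b') :
    fx m b x n ≠ fx m b' x n := by
  unfold fx
  simp only [hn, decide_true, Bool.and_true]
  cases b <;> cases b' <;> simp at hb ⊢

/-- no hits: the colouring `g` and the path `x` are saturated for the node -/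
def NH (B : ℕ → Block) (j : ℕ) (ν : Node) (c : Bool) (g x : ℕ → Bool) : Prop :=
  ∀ ρ l n s, hd c ν <+: ρ → (∀ i < ρ.length, (hd c ν).length ≤ i → gb ρ i = true →
    g i = c) → wst (Bool × List Bool) (aI j) s (c, ρ) = true → (B j).1 ≤ n →
    Vs s (eI j) l ρ n → (c, l, x n) ∉ ν.2.2

/-- infinite output which is homogeneous for the tree -/
def Sol (S : ℕ → List Block) (c : Bool) (W : ℕ → Prop) : Prop :=
  {n | W n}.Infinite ∧ ∃ b : Bool, ∀ k, ∃ σ, TT S c σ ∧ σ.length = k ∧
    ∀ i < k, W i → gb σ i = b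

theorem Con.success (h : Con S B) (j : ℕ) (ν : Node) (hν : ν ∈ (B j).2.2) (c : Bool)
    (x x' g g' : ℕ → Bool) (hs : NH B j ν c g x) (hs' : NH B j ν c g' x')
    (hxx : ∀ n, (B j).1 + (B j).2.1.length ≤ n → x n ≠ x' n) (H : ℕ → Bool)
    (hh : ∀ i < (hd c ν).length, H i = gb (hd c ν) i)
    (hH : ∀ i, (hd c ν).length ≤ i → H i = true → g i = c ∧ g' i = c)
    (ha : ∀ k, (hd c ν).length ≤ k → ∃ s, wst (Bool × List Bool) (aI j) s (c, rs H k) = true)
    (l : ℕ) (hl : l < rI j) : ¬ Sol S c fun n => ∃ k s, Vs s (eI j) l (rs H k) n := by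
  rintro ⟨hinf, b, hb⟩
  set m := (B j).1 + (B j).2.1.length with hm
  obtain ⟨n, hn, hmn⟩ := hinf.exists_gt m
  obtain ⟨k, s, hv⟩ := hn
  set K := max k (hd c ν).length with hK
  have hv1 : Vs s (eI j) l (rs H K) n := Vs_pre hv (rs_prefix H (le_max_left _ _))
  obtain ⟨s', hs1⟩ := ha K (le_max_right _ _)
  have hv2 : Vs (max s s') (eI j) l (rs H K) n := Vs_mono (le_max_left _ _) hv1
  have ha2 := wst_mono (le_max_right s s') hs1
  have hpre : hd c ν <+: rs H K := by
    have e : rs H (hd c ν).length = hd c ν := by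
      rw [rs_congr (Q := gb (hd c ν)) hh, rs_gb rfl]
    rw [← e]
    simpa using rs_prefix H (le_max_right k (hd c ν).length)
  have hnew : ∀ i < (rs H K).length, (hd c ν).length ≤ i → gb (rs H K) i = true →
      g i = c ∧ g' i = c := by
    intro i hi hi2 hi3
    rw [rs_length] at hi
    rw [gb_rs hi] at hi3
    exact hH i hi2 hi3
  have han : (B j).1 ≤ n := by omega
  have r1 := hs (rs H K) l n (max s s') hpre (fun i a b d => (hnew i a b d).1) ha2 han hv2
  have r2 := hs' (rs H K) l n (max s s') hpre (fun i a b d => (hnew i a b d).2) ha2 han hv2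
  have hne := hxx n hmn.le
  have hboth : ∀ v, (c, l, v) ∉ ν.2.2 := by
    intro v
    by_cases hvx : v = x n
    · rw [hvx]; exact r1
    · have : v = x' n := by
        revert hne hvx
        cases x n <;> cases x' n <;> cases v <;> simp
      rw [this]; exact r2
  have hits : ∀ v, ∃ n s, (B j).1 ≤ n ∧ n < m ∧ Vs s (eI j) l (hd c ν) n ∧
      col c (gp (B j).2.1 (n - (B j).1)) = v := by
    intro v
    rcases (h.PB j).hit ν hν c l v hl with a | a
    · exact absurd a (hboth v)
    · exact a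
  obtain ⟨n0, s0, a1, a2, a3, a4⟩ := hits false
  obtain ⟨n1, s1, b1, b2, b3, b4⟩ := hits true
  -- a long string in the tree
  obtain ⟨t0, ht0⟩ := h.B_mem j
  obtain ⟨σ, hσ, hσl, hσb⟩ := hb (max t0 m)
  have hWn : ∀ n s, Vs s (eI j) l (hd c ν) n → ∃ k s, Vs s (eI j) l (rs H k) n :=
    fun n s hv => ⟨K, s, Vs_pre hv hpre⟩
  have e0 := hσb n0 (by omega) (hWn n0 s0 a3)
  have e1 := hσb n1 (by omega) (hWn n1 s1 b3)
  rw [TT_iff] at hσ
  have hlk : LkS (S σ.length) c n0 n1 true := by
    refine ⟨B j, List.mem_of_getElem? (ht0 σ.length (by omega)).1, n0 - (B j).1, n1 - (B j).1,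
      by omega, by omega, by omega, by omega, ?_⟩
    rw [a4, b4]
    rfl
  have := hσ n0 n1 true hlk (by omega) (by omega)
  rw [e0, e1] at this
  simp at this

end

end Pool.Agent.helper643_RW
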