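import Pool.Agent.helper643_RW.Top

set_option autoImplicit false

/-!
Saturation: for each node of a limit block and each pair of paths through the two trees which
agrees with the colours of the block there is a colouring with no hits.
-/

namespace Pool.Agent.helper643_RW

open Pool.Agent.Helper926 Pool.Agent.Helper926.RE

theorem fl_len {L : List Block} (h : ∀ b ∈ L, 0 < b.2.1.length) : L.length ≤ (fl L).length := by
  induction L with
  | nil => simp
  | cons b L ih =>
    have h1 := h b (by simp)
    have h2 := ih fun b' hb' => h b' (List.mem_cons_of_mem _ hb')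
    have h3 : fl (b :: L) = b.2.1 ++ fl L := rfl
    rw [h3, List.length_append, List.length_cons]
    omega

theorem rB_get {B : ℕ → Block} {p i : ℕ} (h : i < p) :
    ((List.range p).map B)[i]? = some (B i) := by simp [h]

theorem rB_take {B : ℕ → Block} {p i : ℕ} (h : i ≤ p) :
    ((List.range p).map B).take i = (List.range i).map B := by
  rw [← List.map_take, List.take_range, Nat.min_eq_left h]

section

variable {S : ℕ → List Block} {B : ℕ → Block}

theorem Con.sat_g (h : Con S B) (j : ℕ) (ν : Node) (hν : ν ∈ (B j).2.2) (x : Bool → ℕ → Bool)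
    (hx : ∀ c, Pth S c (x c))
    (hxB : ∀ c, ∀ u < (B j).2.1.length, x c ((B j).1 + u) = col c (gp (B j).2.1 u)) :
    ∃ g : ℕ → Bool, (∀ n s, wst (ℕ × Bool) (gI j) s (n, !g n) = false) ∧
      ∀ c ρ l n s, hd c ν <+: ρ → (∀ i < ρ.length, (hd c ν).length ≤ i → gb ρ i = true →
        g i = c) → wst (Bool × List Bool) (aI j) s (c, ρ) = true → (B j).1 ≤ n →
        Vs s (eI j) l ρ n → (c, l, x c n) ∉ ν.2.2 := by
  classical
  obtain ⟨k, hk, hkν⟩ := List.getElem_of_mem hν
  have hgn : gN (B j).2.2 k = ν := by
    unfold gN
    rw [List.getD_eq_getElem?_getD, List.getElem?_eq_getElem hk, hkν]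
    rfl
  have key := konig (fun z => (∀ s, ¬ Rf s (gI j) z) ∧
    ∀ c ρ l n s, ρ.length ≤ z.length → hd c ν <+: ρ → (∀ i < ρ.length, (hd c ν).length ≤ i →
      gb ρ i = true → gb z i = c) → wst (Bool × List Bool) (aI j) s (c, ρ) = true → (B j).1 ≤ n →
        Vs s (eI j) l ρ n → (c, l, x c n) ∉ ν.2.2) ?_ ?_
  · obtain ⟨P, hP⟩ := key
    refine ⟨P, fun n s => ?_, ?_⟩
    · by_contra hne
      refine (hP (n + 1)).1 s ⟨n, by rw [rs_length]; omega, ?_⟩
      rw [gb_rs (by omega)]
      simpa using hne
    · intro c ρ l n s h1 h2 h3 h4 h5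
      refine (hP ρ.length).2 c ρ l n s (by rw [rs_length]) h1 (fun i hi a b => ?_) h3 h4 h5
      rw [gb_rs hi]
      exact h2 i hi a b
  · rintro z w ⟨h1, h2⟩
    have hpre : z <+: z ++ w := ⟨w, rfl⟩
    refine ⟨?_, ?_⟩
    · rintro s ⟨n, hn, hr⟩
      refine h1 s ⟨n, by rw [List.length_append]; omega, ?_⟩
      rw [gb_prefix hpre hn]
      exact hr
    · intro c ρ l n s b1 b2 b3 b4 b5 b6
      refine h2 c ρ l n s (by rw [List.length_append]; omega) b2 (fun i hi a b => ?_) b4 b5 b6
      rw [gb_prefix hpre (by omega)]
      exact b3 i hi a b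
  · intro U
    by_contra hcon
    -- every string of length `U` is bad
    have hbad : ∀ g ∈ allL U, (∃ s, Rf s (gI j) g) ∨ ∃ c ρ l n s, ρ.length ≤ U ∧
        hd c ν <+: ρ ∧ (∀ i < ρ.length, (hd c ν).length ≤ i → gb ρ i = true → gb g i = c) ∧
        wst (Bool × List Bool) (aI j) s (c, ρ) = true ∧ (B j).1 ≤ n ∧ Vs s (eI j) l ρ n ∧
        (c, l, x c n) ∈ ν.2.2 := by
      intro g hg
      by_contra hb
      rw [not_or] at hb
      obtain ⟨hb1, hb2⟩ := hb
      refine hcon ⟨g, by rw [mem_allL.1 hg], fun s hs => hb1 ⟨s, hs⟩, ?_⟩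
      intro c ρ l n s b1 b2 b3 b4 b5 b6 b7
      rw [mem_allL.1 hg] at b1
      exact hb2 ⟨c, ρ, l, n, s, b1, b2, b3, b4, b5, b6, b7⟩
    -- collect the hits
    have hcol : ∀ A : List (List Bool), (∀ g ∈ A, g ∈ allL U) → ∃ (s N : ℕ) (F : List Hit),
        (∀ t ∈ F, t.2.1.length ≤ U ∧ hd t.1 ν = t.2.1.take (hd t.1 ν).length ∧
          (B j).1 ≤ t.2.2.2.1 ∧ t.2.2.2.1 < N ∧ Vs s (eI j) t.2.2.1 t.2.1 t.2.2.2.1 ∧
          wst (Bool × List Bool) (aI j) s (t.1, t.2.1) = true ∧
          t.2.2.2.2.length < ν.2.2.length ∧
          ∀ y ∈ ν.2.2, y = (t.1, t.2.2.1, x t.1 t.2.2.2.1) ∨ y ∈ t.2.2.2.2) ∧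
        ∀ g ∈ A, Rf s (gI j) g ∨ ∃ t ∈ F, ∀ i < t.2.1.length, (hd t.1 ν).length ≤ i →
          gb t.2.1 i = true → gb g i = t.1 := by
      intro A
      induction A with
      | nil => intro _; exact ⟨0, 0, [], by simp, by simp⟩
      | cons g A ih =>
        intro hA
        obtain ⟨s, N, F, hF, hc⟩ := ih fun g' hg' => hA g' (List.mem_cons_of_mem _ hg')
        rcases hbad g (hA g (by simp)) with ⟨s', hr⟩ | ⟨c, ρ, l, n, s', b1, b2, b3, b4, b5, b6, b7⟩
        · refine ⟨max s s', N, F, ?_, ?_⟩
          · intro t ht
            obtain ⟨a1, a2, a3, a4, a5, a6, a7, a8⟩ := hF t ht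
            exact ⟨a1, a2, a3, a4, Vs_mono (le_max_left _ _) a5, wst_mono (le_max_left _ _) a6,
              a7, a8⟩
          · intro g' hg'
            rcases List.mem_cons.1 hg' with rfl | hg'
            · exact Or.inl (Rf_mono (le_max_right _ _) hr)
            · rcases hc g' hg' with a | a
              · exact Or.inl (Rf_mono (le_max_left _ _) a)
              · exact Or.inr a
        · refine ⟨max s s', max N (n + 1), (c, ρ, l, n, ν.2.2.erase (c, l, x c n)) :: F, ?_, ?_⟩
          · intro t ht
            rcases List.mem_cons.1 ht with rfl | ht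
            · refine ⟨b1, List.prefix_iff_eq_take.1 b2, b5, by simp only; omega,
                Vs_mono (le_max_right _ _) b6, wst_mono (le_max_right _ _) b4, ?_, ?_⟩
              · show (ν.2.2.erase (c, l, x c n)).length < _
                rw [List.length_erase_of_mem b7]
                have := List.length_pos_of_mem b7
                omega
              · intro y hy
                by_cases hyt : y = (c, l, x c n)
                · exact Or.inl hyt
                · exact Or.inr ((List.mem_erase_of_ne hyt).2 hy)
            · obtain ⟨a1, a2, a3, a4, a5, a6, a7, a8⟩ := hF t ht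
              exact ⟨a1, a2, a3, lt_of_lt_of_le a4 (le_max_left _ _),
                Vs_mono (le_max_left _ _) a5, wst_mono (le_max_left _ _) a6, a7, a8⟩
          · intro g' hg'
            rcases List.mem_cons.1 hg' with rfl | hg'
            · exact Or.inr ⟨_, List.mem_cons_self, b3⟩
            · rcases hc g' hg' with a | ⟨t, ht, a⟩
              · exact Or.inl (Rf_mono (le_max_left _ _) a)
              · exact Or.inr ⟨t, List.mem_cons_of_mem _ ht, a⟩
    obtain ⟨s, N, F, hF, hc⟩ := hcol (allL U) fun g hg => hg
    -- the witness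
    set p := j + 1 + N with hp
    set L := (List.range p).map B with hL
    have hLj : gB L j = B j := gB_eq (rB_get (by omega))
    have hstart : ∀ i < p, (B i).1 + (B i).2.1.length ≤ (fl L).length := by
      intro i hi
      have := fl_take_le (rB_get (B := B) hi)
      rw [rB_take hi.le] at this
      rw [(h.PB i).st]
      exact this
    have hsplit : (fl L).length = (B j).1 + (fl (L.drop j)).length := by
      rw [(h.PB j).st, ← rB_take (p := p) (by omega), ← List.length_append, ← fl_append,
        List.take_append_drop]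
    have hflN : N ≤ (fl L).length := by
      have h1 : L.length ≤ (fl L).length := by
        apply fl_len
        intro b hb
        rw [hL, List.mem_map] at hb
        obtain ⟨i, _, rfl⟩ := hb
        exact (h.PB i).pos
      have h0 : L.length = p := by simp [hL]
      omega
    set ylen := (fl (L.drop j)).length with hylen
    set y : List Pt := (List.range ylen).map fun i =>
      (x false ((B j).1 + i), x true ((B j).1 + i)) with hy
    have hylen' : y.length = ylen := by rw [hy]; simp
    have hgy : ∀ i < ylen, ∀ c, col c (gp y i) = x c ((B j).1 + i) := by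
      intro i hi c
      have : gp y i = (x false ((B j).1 + i), x true ((B j).1 + i)) := by
        rw [hy]
        unfold gp
        rw [List.getD_eq_getElem?_getD]
        simp [hi]
      rw [this]
      cases c <;> rfl
    have hmon : ∀ i, j ≤ i → (B j).1 ≤ (B i).1 := by
      intro i hi
      rw [(h.PB j).st, (h.PB i).st, ← rB_take (p := i) hi]
      conv_rhs => rw [← List.take_append_drop j ((List.range i).map B)]
      rw [fl_append, List.length_append]
      omega
    refine h.sat j p (y, p, k, U, F) s (by omega) ⟨?_, ?_, ?_, ?_, ?_, ?_, ?_, ?_⟩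
    · simp
    · simp; omega
    · exact hylen'
    · intro i hi
      rw [hLj] at hi ⊢
      have h1 := hstart j (by omega)
      have hiy : i < ylen := by omega
      have h2 := hgy i hiy false
      have h3 := hgy i hiy true
      rw [hxB false i hi] at h2
      rw [hxB true i hi] at h3
      exact Prod.ext h2 h3
    · intro b hb
      rw [List.mem_drop_iff_getElem] at hb
      obtain ⟨i, hi, rfl⟩ := hb
      rw [hLj]
      have hi' : j + 1 + i < p := by
        simp at hi; omega
      have hbi : L[j + 1 + i] = B (j + 1 + i) := by simp [hL]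
      rw [hbi]
      intro u hu v hv c _
      have h1 := hstart _ hi'
      have h2 := hmon (j + 1 + i) (by omega)
      rw [hgy _ (by omega), hgy _ (by omega), ← h.B_link (hx c) hu hv]
      congr 2 <;> omega
    · rw [hLj]; exact hk
    · intro t ht
      obtain ⟨a1, a2, a3, a4, a5, a6, a7, a8⟩ := hF t ht
      rw [hLj]
      show VH s j (B j).1 y U (gN (B j).2.2 k) t
      rw [hgn]
      refine ⟨a1, a2, a3, by rw [hylen']; omega, a5, a6, a7, ?_⟩
      intro z hz
      rcases a8 z hz with e | e
      · left
        rw [e, hgy _ (by omega)]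
        congr 3
        omega
      · exact Or.inr e
    · rw [hLj]
      show Cov s j U (gN (B j).2.2 k) F
      rw [hgn]
      exact hc

end

end Pool.Agent.helper643_RW
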