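import Pool.Agent.helper643_RW.Inv

set_option autoImplicit false

/-!
The sequence of states, the trees, and the limit blocks.
-/

namespace Pool.Agent.helper643_RW

open Pool.Agent.Helper926 Pool.Agent.Helper926.RE

/-- link given by the block `b` -/
def Lk (b : Block) (c : Bool) (n n' : ℕ) (v : Bool) : Prop :=
  ∃ u u', u < b.2.1.length ∧ u' < b.2.1.length ∧ n = b.1 + u ∧ n' = b.1 + u' ∧
    (col c (gp b.2.1 u) ^^ col c (gp b.2.1 u')) = v

/-- link of a state -/
def LkS (S : List Block) (c : Bool) (n n' : ℕ) (v : Bool) : Prop := ∃ b ∈ S, Lk b c n n' v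

theorem fl_take_le {L : List Block} {i : ℕ} {b : Block} (h : L[i]? = some b) :
    (fl (L.take i)).length + b.2.1.length ≤ (fl L).length := by
  have h1 : i < L.length := by
    by_contra hc
    rw [List.getElem?_eq_none (by omega)] at h
    simp at h
  have h2 : L = L.take i ++ b :: L.drop (i + 1) := by
    conv_lhs => rw [← List.take_append_drop i L]
    congr 1
    rw [List.drop_eq_getElem_cons h1]
    congr 1
    rw [List.getElem?_eq_getElem h1] at h
    exact Option.some.inj h
  conv_rhs => rw [h2]
  rw [fl_append]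
  simp [fl]

theorem gp_fl {L : List Block} {i u : ℕ} {b : Block} (h : L[i]? = some b)
    (hu : u < b.2.1.length) : gp (fl L) ((fl (L.take i)).length + u) = gp b.2.1 u := by
  have h1 : i < L.length := by
    by_contra hc
    rw [List.getElem?_eq_none (by omega)] at h
    simp at h
  have h2 : L = L.take i ++ b :: L.drop (i + 1) := by
    conv_lhs => rw [← List.take_append_drop i L]
    congr 1
    rw [List.drop_eq_getElem_cons h1]
    congr 1
    rw [List.getElem?_eq_getElem h1] at h
    exact Option.some.inj h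
  conv_lhs => rw [h2]
  rw [fl_append]
  have e : (List.take i (List.take i L ++ b :: List.drop (i + 1) L)) = L.take i := by
    rw [List.take_left' (by simp; omega)]
  rw [e, gp_append_right]
  show gp (b.2.1 ++ fl (L.drop (i + 1))) u = _
  exact gp_append_left hu

theorem Lk_step_new {S : List Block} {c : Bool} {n n' : ℕ} {v : Bool} {b : Block}
    (h : LkS S c n n' v) : LkS (S ++ [b]) c n n' v := by
  obtain ⟨b', hb, h⟩ := h
  exact ⟨b', List.mem_append_left _ hb, h⟩

theorem Lk_step_ap {S : List Block} {s j p : ℕ} {w : Wit} (hI : Inv S) (hjp : j < p)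
    (hp : p ≤ S.length) (ho : Opp s (S.take p) j w) {c : Bool} {n n' : ℕ} {v : Bool}
    (h : LkS S c n n' v) : LkS (S.take j ++ [apB S j w]) c n n' v := by
  obtain ⟨h1, h2, h3, h4, h5, h6, h7, h8⟩ := ho
  rw [gB_take hjp] at h4 h5 h6 h7 h8
  have hjl : j < S.length := by omega
  have hb : S[j]? = some (gB S j) := by
    have : S[j]? = some S[j] := by simp [hjl]
    rw [this, gB_eq this]
  have hP := hI j _ hb
  obtain ⟨b, hbm, u, u', hu, hu', rfl, rfl, hv⟩ := h
  obtain ⟨i, hi, rfl⟩ := List.getElem_of_mem hbm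
  have hbi : S[i]? = some S[i] := by simp [hi]
  have hPi := hI i _ hbi
  have h1' : w.2.1 = p := by rw [h1]; simp; omega
  have hylen : (gB S j).1 + w.1.length = (fl (S.take p)).length := by
    rw [hP.st, h3]
    have e1 : S.take p = S.take j ++ (S.take p).drop j := by
      conv_lhs => rw [← List.take_append_drop j (S.take p), List.take_take,
        Nat.min_eq_left hjp.le]
    conv_rhs => rw [e1, fl_append, List.length_append]
  by_cases hij : i < j
  · refine ⟨S[i], ?_, u, u', hu, hu', rfl, rfl, hv⟩
    apply List.mem_append_left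
    rw [List.mem_take_iff_getElem]
    exact ⟨i, by omega, rfl⟩
  · -- the positions inside the new block
    have key : ∀ c ∈ [false, true], (gB S j).1 ≤ S[i].1 ∧
        S[i].1 - (gB S j).1 + u < (apB S j w).2.1.length ∧
        S[i].1 - (gB S j).1 + u' < (apB S j w).2.1.length ∧
        (col c (gp (apB S j w).2.1 (S[i].1 - (gB S j).1 + u)) ^^
          col c (gp (apB S j w).2.1 (S[i].1 - (gB S j).1 + u'))) =
        (col c (gp S[i].2.1 u) ^^ col c (gp S[i].2.1 u')) := by
      intro c hc
      show _ ∧ _ < (w.1 ++ fl (S.drop w.2.1)).length ∧ _ < (w.1 ++ fl (S.drop w.2.1)).length ∧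
        (col c (gp (w.1 ++ fl (S.drop w.2.1)) _) ^^ col c (gp (w.1 ++ fl (S.drop w.2.1)) _)) = _
      rw [h1']
      by_cases hip : i < p
      · -- inside `w.1`
        have e1 : (S.take p)[i]? = some S[i] := by rw [List.getElem?_take]; simp [hip]
        have e2 := fl_take_le e1
        rw [List.take_take, Nat.min_eq_left hip.le, ← hPi.st, ← hylen] at e2
        have e3 : (gB S j).1 ≤ S[i].1 := by
          rw [hP.st, hPi.st]
          have : S.take i = S.take j ++ (S.take i).drop j := by
            conv_lhs => rw [← List.take_append_drop j (S.take i), List.take_take,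
              Nat.min_eq_left (by omega)]
          rw [this, fl_append, List.length_append]
          omega
        refine ⟨e3, by rw [List.length_append]; omega, by rw [List.length_append]; omega, ?_⟩
        rw [gp_append_left (by omega), gp_append_left (by omega)]
        by_cases hij' : i = j
        · subst hij'
          have e4 : gB S i = S[i] := gB_eq hbi
          rw [e4] at h4 ⊢
          rw [Nat.sub_self, Nat.zero_add, Nat.zero_add, h4 u hu, h4 u' hu']
        · refine h5 S[i] ?_ u hu u' hu' c hc
          rw [List.mem_drop_iff_getElem]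
          refine ⟨i - (j + 1), by simp; omega, ?_⟩
          simp only [List.getElem_take]
          congr 1
          omega
      · -- inside the rest
        have e1 : (S.drop p)[i - p]? = some S[i] := by
          rw [List.getElem?_drop]
          rw [show p + (i - p) = i from by omega]
          exact hbi
        have e2 := fl_take_le e1
        have e5 : (fl (S.take i)).length = (fl (S.take p)).length +
            (fl ((S.drop p).take (i - p))).length := by
          rw [← List.length_append, ← fl_append, List.take_drop,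
            show p + (i - p) = i from by omega]
          congr 2
          conv_lhs => rw [← List.take_append_drop p (S.take i), List.take_take,
            Nat.min_eq_left (by omega)]
        have e3 : (gB S j).1 ≤ S[i].1 := by
          rw [hPi.st, e5]; omega
        have e6 : S[i].1 - (gB S j).1 = w.1.length + (fl ((S.drop p).take (i - p))).length := by
          rw [hPi.st, e5]; omega
        refine ⟨e3, by rw [List.length_append]; omega, by rw [List.length_append]; omega, ?_⟩
        rw [e6, Nat.add_assoc, Nat.add_assoc, gp_append_right, gp_append_right, gp_fl e1 hu,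
          gp_fl e1 hu']
    have hc : c ∈ [false, true] := by cases c <;> simp
    obtain ⟨k1, k2, k3, k4⟩ := key c hc
    refine ⟨apB S j w, by simp, S[i].1 - (gB S j).1 + u, S[i].1 - (gB S j).1 + u', k2, k3, ?_, ?_,
      k4.trans hv⟩
    · show _ = (gB S j).1 + _
      omega
    · show _ = (gB S j).1 + _
      omega

/-- the properties of the sequence of states which are used -/
structure Con (S : ℕ → List Block) (B : ℕ → Block) : Prop where
  comp : Computable S
  inv : ∀ s, Inv (S s)
  step : ∀ s c n n' v, LkS (S s) c n n' v → LkS (S (s + 1)) c n n' v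
  lim : ∀ p, ∃ s0, ∀ s, s0 ≤ s → p ≤ (S s).length ∧ (S s).take p = (List.range p).map B
  sat : ∀ j p w s, j < p → ¬ Opp s ((List.range p).map B) j w

theorem exists_Con : ∃ S B, Con S B := by
  obtain ⟨S, hS, h0, hI, hst, B, hB, hsat⟩ := fin_inj (β := Block)
    (fun s L j w => Opp s L j (dw w))
    (cp_Opp (by fun_prop) (by fun_prop) (by fun_prop) (by fun_prop))
    (fun s t L j w hst h => Opp_mono hst h)
    (fun S j w => apB S j (dw w)) (by fun_prop) nwB (by fun_prop) RB RB_wf Inv Inv_nil Inv_new
    (fun s S j p w hi hjp hp ho => ⟨Inv_ap S s j p _ hi hjp hp ho,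
      fun b hb => RB_ap S s j p _ hjp ho b hb⟩)
  refine ⟨S, B, hS, hI, ?_, hB, ?_⟩
  · intro s c n n' v h
    rcases hst s with ⟨t, j, p, w, hjp, hp, ho, he⟩ | he
    · rw [he]
      exact Lk_step_ap (hI s) hjp hp ho h
    · rw [he]
      exact Lk_step_new h
  · intro j p w s hjp ho
    refine hsat j p (Encodable.encode w) s hjp ?_
    have : dw (Encodable.encode w) = w := by
      unfold dw
      rw [Encodable.encodek]
      rfl
    rw [this]
    exact ho

/-- the tree number `c` -/
def TT (S : ℕ → List Block) (c : Bool) (σ : List Bool) : Prop :=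
  ∀ b ∈ S σ.length, ∀ u < b.2.1.length, ∀ v < b.2.1.length, b.1 + u < σ.length →
    b.1 + v < σ.length →
    (gb σ (b.1 + u) ^^ gb σ (b.1 + v)) = (col c (gp b.2.1 u) ^^ col c (gp b.2.1 v))

theorem cp_TT {S : ℕ → List Block} (hS : Computable S) (c : Bool) : ComputablePred (TT S c) := by
  unfold TT
  have hS' : Computable fun σ : List Bool => S σ.length := hS.comp (by fun_prop)
  refine cp_all_mem (p := fun (σ : List Bool) (b : Block) => ∀ u < b.2.1.length,
    ∀ v < b.2.1.length, b.1 + u < σ.length → b.1 + v < σ.length →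
    (gb σ (b.1 + u) ^^ gb σ (b.1 + v)) = (col c (gp b.2.1 u) ^^ col c (gp b.2.1 v))) ?_ hS'
  refine cp_all_lt (p := fun (x : List Bool × Block) u =>
    ∀ v < x.2.2.1.length, x.2.1 + u < x.1.length → x.2.1 + v < x.1.length →
    (gb x.1 (x.2.1 + u) ^^ gb x.1 (x.2.1 + v)) =
      (col c (gp x.2.2.1 u) ^^ col c (gp x.2.2.1 v))) ?_ (by fun_prop)
  refine cp_all_lt (p := fun (y : (List Bool × Block) × ℕ) v =>
    y.1.2.1 + y.2 < y.1.1.length → y.1.2.1 + v < y.1.1.length →
    (gb y.1.1 (y.1.2.1 + y.2) ^^ gb y.1.1 (y.1.2.1 + v)) =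
      (col c (gp y.1.2.2.1 y.2) ^^ col c (gp y.1.2.2.1 v))) ?_ (by fun_prop)
  exact cp_imp (cp_lt (by fun_prop) (by fun_prop)) (cp_imp (cp_lt (by fun_prop) (by fun_prop))
    (cp_eq (by fun_prop) (by fun_prop)))

section

variable {S : ℕ → List Block} {B : ℕ → Block}

theorem TT_iff {c : Bool} {σ : List Bool} : TT S c σ ↔
    ∀ n n' v, LkS (S σ.length) c n n' v → n < σ.length → n' < σ.length →
      (gb σ n ^^ gb σ n') = v := by
  constructor
  · rintro h n n' v ⟨b, hb, u, u', hu, hu', rfl, rfl, rfl⟩ hn hn'
    exact h b hb u hu u' hu' hn hn'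
  · intro h b hb u hu v hv hn hn'
    exact h _ _ _ ⟨b, hb, u, v, hu, hv, rfl, rfl, rfl⟩ hn hn'

theorem Con.lk_mono (h : Con S B) {s t : ℕ} (hst : s ≤ t) {c : Bool} {n n' : ℕ} {v : Bool}
    (hl : LkS (S s) c n n' v) : LkS (S t) c n n' v := by
  induction t, hst using Nat.le_induction with
  | base => exact hl
  | succ t _ ih => exact h.step t c n n' v ih

theorem gb_prefix {σ τ : List Bool} (h : τ <+: σ) {n : ℕ} (hn : n < τ.length) :
    gb σ n = gb τ n := by
  obtain ⟨ρ, rfl⟩ := h
  unfold gb
  rw [List.getD_eq_getElem?_getD, List.getD_eq_getElem?_getD, List.getElem?_append_left hn]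

theorem Con.TT_closed (h : Con S B) (c : Bool) (σ τ : List Bool) (hp : τ <+: σ)
    (ht : TT S c σ) : TT S c τ := by
  rw [TT_iff] at *
  intro n n' v hl hn hn'
  have hle := hp.length_le
  have := ht n n' v (h.lk_mono hle hl) (by omega) (by omega)
  rw [gb_prefix hp hn, gb_prefix hp hn'] at this
  exact this

theorem Con.TT_inf (h : Con S B) (c : Bool) (n : ℕ) : ∃ σ, TT S c σ ∧ σ.length = n := by
  refine ⟨(List.range n).map fun m => col c (gp (fl (S n)) m), ?_, by simp⟩
  rw [TT_iff]
  rintro m m' v ⟨b, hb, u, u', hu, hu', rfl, rfl, rfl⟩ hm hm'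
  simp only [List.length_map, List.length_range] at *
  rw [gb_map hm, gb_map hm']
  obtain ⟨i, hi, rfl⟩ := List.getElem_of_mem hb
  have hbi : (S n)[i]? = some (S n)[i] := by simp [hi]
  have hP := h.inv n i _ hbi
  rw [hP.st, gp_fl hbi hu, gp_fl hbi hu']

/-- an infinite path -/
def Pth (S : ℕ → List Block) (c : Bool) (x : ℕ → Bool) : Prop :=
  ∀ s n n' v, LkS (S s) c n n' v → (x n ^^ x n') = v

theorem Con.Pth_iff (h : Con S B) {c : Bool} {x : ℕ → Bool} :
    Pth S c x ↔ ∀ k, TT S c ((List.range k).map x) := by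
  constructor
  · intro hx k
    rw [TT_iff]
    intro n n' v hl hn hn'
    simp only [List.length_map, List.length_range] at *
    rw [gb_map hn, gb_map hn']
    exact hx _ _ _ _ hl
  · intro hx s n n' v hl
    have h1 := hx (max s (max (n + 1) (n' + 1)))
    rw [TT_iff] at h1
    simp only [List.length_map, List.length_range] at h1
    have h2 := h1 n n' v (h.lk_mono (by omega) hl) (by omega) (by omega)
    rw [gb_map (by omega), gb_map (by omega)] at h2
    exact h2

theorem Con.B_mem (h : Con S B) (i : ℕ) : ∃ s0, ∀ s, s0 ≤ s → (S s)[i]? = some (B i) ∧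
    (S s).take i = (List.range i).map B := by
  obtain ⟨s0, h0⟩ := h.lim (i + 1)
  obtain ⟨s1, h1⟩ := h.lim i
  refine ⟨max s0 s1, fun s hs => ⟨?_, (h1 s (by omega)).2⟩⟩
  obtain ⟨a, b⟩ := h0 s (by omega)
  have e : ((S s).take (i + 1))[i]? = (S s)[i]? := by rw [List.getElem?_take]; simp
  rw [← e, b]
  simp

theorem Con.PB (h : Con S B) (i : ℕ) :
    PB i (fl ((List.range i).map B)).length (B i) := by
  obtain ⟨s0, h0⟩ := h.B_mem i
  obtain ⟨a, b⟩ := h0 s0 le_rfl
  rw [← b]
  exact h.inv s0 i _ a

theorem Con.B_link (h : Con S B) {i : ℕ} {c : Bool} {x : ℕ → Bool} (hx : Pth S c x) {u v : ℕ}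
    (hu : u < (B i).2.1.length) (hv : v < (B i).2.1.length) :
    (x ((B i).1 + u) ^^ x ((B i).1 + v)) = (col c (gp (B i).2.1 u) ^^ col c (gp (B i).2.1 v)) := by
  obtain ⟨s0, h0⟩ := h.B_mem i
  obtain ⟨a, b⟩ := h0 s0 le_rfl
  refine hx s0 _ _ _ ⟨B i, List.mem_of_getElem? a, u, v, hu, hv, rfl, rfl, rfl⟩

end

end Pool.Agent.helper643_RW
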