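import Pool.Agent.helper643_RW.Seq

set_option autoImplicit false

/-!
Compactness and category for the Cantor space, in terms of finite strings.
-/

namespace Pool.Agent.helper643_RW

/-- initial segment of length `k` -/
def rs (P : ℕ → Bool) (k : ℕ) : List Bool := (List.range k).map P

theorem rs_length (P : ℕ → Bool) (k : ℕ) : (rs P k).length = k := by simp [rs]

theorem gb_rs {P : ℕ → Bool} {k i : ℕ} (h : i < k) : gb (rs P k) i = P i := gb_map h

theorem rs_succ (P : ℕ → Bool) (k : ℕ) : rs P (k + 1) = rs P k ++ [P k] := by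
  unfold rs
  rw [List.range_succ, List.map_append]
  rfl

theorem rs_prefix (P : ℕ → Bool) {k l : ℕ} (h : k ≤ l) : rs P k <+: rs P l := by
  induction l, h using Nat.le_induction with
  | base => exact List.prefix_rfl
  | succ l _ ih => exact ih.trans ⟨[P l], (rs_succ P l).symm⟩

theorem rs_gb {z : List Bool} {k : ℕ} (h : z.length = k) : rs (gb z) k = z := by
  apply List.ext_getElem
  · simp [rs, h]
  · intro i h1 h2
    simp [rs, gb, List.getD_eq_getElem?_getD, h2]

theorem rs_congr {P Q : ℕ → Bool} {k : ℕ} (h : ∀ i < k, P i = Q i) : rs P k = rs Q k := by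
  unfold rs
  apply List.map_congr_left
  intro i hi
  exact h i (List.mem_range.1 hi)

theorem rs_inj {P Q : ℕ → Bool} {k : ℕ} (h : rs P k = rs Q k) : ∀ i < k, P i = Q i := by
  intro i hi
  have := congrArg (fun z => gb z i) h
  simp only [gb_rs hi] at this
  exact this

theorem isClosed_rs (k : ℕ) (Q : List Bool → Prop) : IsClosed {P : ℕ → Bool | Q (rs P k)} := by
  have h1 : Continuous fun P : ℕ → Bool => (fun i : Fin k => P i) := by fun_prop
  have h2 : IsClosed {v : Fin k → Bool | Q (List.ofFn v)} := isClosed_discrete _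
  have h3 := h2.preimage h1
  have h4 : ∀ P : ℕ → Bool, List.ofFn (fun i : Fin k => P i) = rs P k := by
    intro P
    apply List.ext_getElem
    · simp [rs]
    · intro i h1 h2
      simp [rs]
  convert h3 using 1
  ext P
  simp only [Set.mem_ofPred_eq, Set.mem_preimage, h4]

/-- König's lemma -/
theorem konig (G : List Bool → Prop) (hG : ∀ z w, G (z ++ w) → G z)
    (h : ∀ n, ∃ z, n ≤ z.length ∧ G z) : ∃ P : ℕ → Bool, ∀ k, G (rs P k) := by
  have key := IsCompact.nonempty_iInter_of_sequence_nonempty_isCompact_isClosed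
    (fun k => {P : ℕ → Bool | G (rs P k)}) ?_ ?_ ?_ ?_
  · obtain ⟨P, hP⟩ := key
    exact ⟨P, fun k => Set.mem_iInter.1 hP k⟩
  · intro k P hP
    have hP' : G (rs P (k + 1)) := hP
    rw [rs_succ] at hP'
    exact hG _ _ hP'
  · intro k
    obtain ⟨z, hz, hg⟩ := h k
    refine ⟨gb z, ?_⟩
    show G (rs (gb z) k)
    have h1 : rs (gb z) k <+: rs (gb z) z.length := rs_prefix _ hz
    rw [rs_gb (z := z) rfl] at h1
    obtain ⟨w, hw⟩ := h1
    exact hG _ w (by rw [hw]; exact hg)
  · exact (isClosed_rs 0 G).isCompact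
  · exact fun k => isClosed_rs k G

theorem baire_cyl (C : Set (ℕ → Bool)) (hC : IsClosed C) (hne : C.Nonempty)
    (K : ℕ → Set (ℕ → Bool)) (hK : ∀ N, IsClosed (K N)) (hcov : ∀ P ∈ C, ∃ N, P ∈ K N) :
    ∃ N, ∃ P0 ∈ C, ∃ k, ∀ P ∈ C, (∀ i < k, P i = P0 i) → P ∈ K N := by
  have : CompactSpace C := isCompact_iff_compactSpace.1 hC.isCompact
  have : Nonempty C := hne.to_subtype
  obtain ⟨N, ⟨P0, hP0⟩, hint⟩ := nonempty_interior_of_iUnion_of_closed
    (f := fun N => ((fun P : C => (P : ℕ → Bool)) ⁻¹' (K N)))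
    (fun N => (hK N).preimage continuous_subtype_val) (by
      ext P
      simp only [Set.mem_iUnion, Set.mem_preimage, Set.mem_univ, iff_true]
      exact hcov P P.2)
  rw [mem_interior] at hint
  obtain ⟨U, hU, hUo, hPU⟩ := hint
  obtain ⟨V, hV, rfl⟩ := isOpen_induced_iff.1 hUo
  rw [isOpen_pi_iff] at hV
  obtain ⟨I, u, hI, hsub⟩ := hV P0 hPU
  refine ⟨N, P0, hP0, I.sup id + 1, fun P hP hag => ?_⟩
  have h1 : P ∈ V := by
    apply hsub
    intro i hi
    rw [hag i (Nat.lt_succ_of_le (Finset.le_sup (f := id) hi))]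
    exact (hI i hi).2
  exact hU (a := ⟨P, hP⟩) h1

end Pool.Agent.helper643_RW
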