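import Pool.Agent.helper643_RW.Exc

set_option autoImplicit false

/-!
The uniform theorem for colourings with a system of reservoirs.
-/

namespace Pool.Agent.helper643_RW

open Pool.Agent.Helper926 Pool.Agent.Helper926.RE

/-- the output of the operator `V` on the set `H` -/
def Op (V : List Bool × ℕ → Prop) (H : ℕ → Bool) (n : ℕ) : Prop := ∃ k, V (rs H k, n)

theorem exists_idx {p : ℕ × List Bool × ℕ → Prop} {q : ℕ × Bool → Prop}
    {a : Bool × List Bool → Prop} (r : ℕ) (hp : REPred p) (hq : REPred q) (ha : REPred a) :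
    ∃ j, rI j = r ∧ (∀ x, p x ↔ ∃ s, wst (ℕ × List Bool × ℕ) (eI j) s x = true) ∧
      (∀ x, q x ↔ ∃ s, wst (ℕ × Bool) (gI j) s x = true) ∧
      (∀ x, a x ↔ ∃ s, wst (Bool × List Bool) (aI j) s x = true) := by
  obtain ⟨e, he⟩ := wst_univ hp
  obtain ⟨g, hg⟩ := wst_univ hq
  obtain ⟨b, hb⟩ := wst_univ ha
  refine ⟨Nat.pair r (Nat.pair e (Nat.pair g b)), ?_, ?_, ?_, ?_⟩
  · unfold rI; simp
  · unfold eI; simpa using he
  · unfold gI; simpa using hg
  · unfold aI; simpa using hb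

theorem Vs_iff {p : ℕ × List Bool × ℕ → Prop} {e : ℕ}
    (he : ∀ x, p x ↔ ∃ s, wst (ℕ × List Bool × ℕ) e s x = true) (l : ℕ) (H : ℕ → Bool) (n : ℕ) :
    (∃ k s, Vs s e l (rs H k) n) ↔ ∃ k, p (l, rs H k, n) := by
  constructor
  · rintro ⟨k, s, k', hk', hw⟩
    rw [rs_length] at hk'
    refine ⟨k', (he _).2 ⟨s, ?_⟩⟩
    have := rs_prefix H (Nat.lt_succ_iff.1 hk')
    rw [List.prefix_iff_eq_take, rs_length] at this
    rw [this]
    exact hw
  · rintro ⟨k, hk⟩
    obtain ⟨s, hs⟩ := (he _).1 hk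
    refine ⟨k, s, k, by rw [rs_length]; omega, ?_⟩
    rw [List.take_of_length_le (by rw [rs_length])]
    exact hs

theorem c_rs {H : ℕ → Bool} (hH : Computable H) : Computable (rs H) := by
  have h1 : Computable fun n : ℕ => (Nat.rec ([] : List Bool) (fun m l => l ++ [H m]) n :
      List Bool) := by
    refine Computable.nat_rec (f := fun n : ℕ => n) (g := fun _ : ℕ => ([] : List Bool))
      (h := fun (_ : ℕ) (y : ℕ × List Bool) => y.2 ++ [H y.1]) Computable.id
      (Computable.const []) ?_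
    unfold Computable₂
    have h2 : Computable fun x : ℕ × ℕ × List Bool => H x.2.1 := hH.comp (by fun_prop)
    fun_prop
  refine h1.of_eq fun n => ?_
  induction n with
  | zero => rfl
  | succ n ih =>
    rw [rs_succ, ← ih]

section

variable {S : ℕ → List Block} {B : ℕ → Block}

theorem Con.no_ce (h : Con S B) (c : Bool) (W : ℕ → Prop) (hW : REPred W) : ¬ Sol S c W := by
  obtain ⟨j, hr, he, hg, ha⟩ := exists_idx (p := fun x : ℕ × List Bool × ℕ => W x.2.2)
    (q := fun x : ℕ × Bool => x.2 = c) (a := fun _ : Bool × List Bool => True) 1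
    (RE.comp hW (by fun_prop)) (RE.eq (by fun_prop) (by fun_prop)) (RE.const True)
  obtain ⟨ν, hν, -⟩ := (h.PB j).cov (fun _ => c) (by
    intro n s
    by_contra hne
    have := (hg (n, !c)).2 ⟨s, by simpa using hne⟩
    simp at this)
  obtain ⟨P, hP⟩ := h.InC_ne j ν hν
  rw [InC_iff] at hP
  obtain ⟨h1, h2, h3, h4⟩ := hP
  have hgc : ∀ α i, cm P (gi α) i = c := by
    intro α i
    by_contra hne
    obtain ⟨s, hs⟩ := (hg (i, !cm P (gi α) i)).1 (by
      show (!cm P (gi α) i) = c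
      revert hne
      cases cm P (gi α) i <;> cases c <;> simp)
    rw [h3 α i s] at hs
    simp at hs
  set H : ℕ → Bool := fun i => if i < (hd c ν).length then gb (hd c ν) i else true with hH
  have hs := h.success j ν hν c _ _ _ _ (h4 (false, false) c) (h4 (true, true) c) (by
    intro n hn
    refine fx_ne hn ?_
    cases c <;> decide) H (by
    intro i hi
    rw [hH]
    simp [hi]) (fun i _ _ => ⟨hgc _ i, hgc _ i⟩) (fun k _ => (ha _).1 trivial) 0
    (by rw [hr]; omega)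
  intro hsol
  apply hs
  have e : (fun n => ∃ k s, Vs s (eI j) 0 (rs H k) n) = W := by
    funext n
    rw [Vs_iff he]
    simp
  rw [e]
  exact hsol

theorem re_union {V : ℕ → List Bool × ℕ → Prop} (r : ℕ) (hV : ∀ l < r, REPred (V l)) :
    REPred fun x : ℕ × List Bool × ℕ => x.1 < r ∧ V x.1 x.2 := by
  induction r with
  | zero =>
    refine (RE.const False).of_eq fun x => ?_
    simp
  | succ r ih =>
    have h1 := ih fun l hl => hV l (by omega)
    have h2 : REPred fun x : ℕ × List Bool × ℕ => x.1 = r ∧ V r x.2 :=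
      RE.and (RE.eq (by fun_prop) (by fun_prop)) (RE.comp (hV r (by omega)) (by fun_prop))
    refine (RE.or h1 h2).of_eq fun x => ?_
    constructor
    · rintro (⟨a, b⟩ | ⟨a, b⟩)
      · exact ⟨by omega, b⟩
      · exact ⟨by omega, by rw [a]; exact b⟩
    · rintro ⟨a, b⟩
      by_cases hx : x.1 = r
      · exact Or.inr ⟨hx, by rw [← hx]; exact b⟩
      · exact Or.inl ⟨by omega, b⟩

theorem Con.uni (h : Con S B) (adm : Bool × List Bool → Prop) (hadm : REPred adm)
    (adm0 : ∀ c, adm (c, [])) (f : ℕ → Bool) (Z : ℕ → ℕ → Prop)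
    (hZ : ∀ N, ComputablePred (Z N)) (hZd : ∀ N M y, N ≤ M → Z M y → Z N y)
    (Good : Bool → (ℕ → Bool) → Prop)
    (hext : ∀ c (τ : List Bool) (Y : ℕ → Prop), adm (c, τ) →
      (∀ i < τ.length, gb τ i = true → f i = c) → (∀ y, Y y → f y = c) →
      (∀ N, ∃ y, Z N y ∧ Y y) → ∃ H : ℕ → Bool, Good c H ∧ (∀ i < τ.length, H i = gb τ i) ∧
      (∀ i, τ.length ≤ i → H i = true → Y i) ∧ ∀ k, τ.length ≤ k → adm (c, rs H k))
    (hexc : ∀ N, (REPred fun x : ℕ × Bool => Z N x.1 ∧ f x.1 = x.2) →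
      ∃ c H, Computable H ∧ Good c H)
    (r : ℕ) (V : ℕ → List Bool × ℕ → Prop) (hV : ∀ l < r, REPred (V l)) :
    ∃ c H, Good c H ∧ ∀ l < r, ¬ Sol S c (Op (V l) H) := by
  classical
  obtain ⟨j, hr, he, hg, ha⟩ := exists_idx r (re_union r hV)
    (RE.const (α := ℕ × Bool) False) hadm
  obtain ⟨ν, hν, hνf⟩ := (h.PB j).cov f (by
    intro n s
    by_contra hne
    exact (hg (n, !f n)).2 ⟨s, by simpa using hne⟩)
  have hadmν : ∀ c, adm (c, hd c ν) := by
    intro c
    rcases (h.PB j).adm ν hν c with e | e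
    · rw [e]; exact adm0 c
    · exact (ha _).2 e
  by_cases hcase : ∃ P, InC S (B j) j ν P ∧ ∃ c α α', col c α ≠ col c α' ∧
      ∀ N, ∃ y, Z N y ∧ (f y = c ∧ cm P (gi α) y = c ∧ cm P (gi α') y = c)
  · obtain ⟨P, hP, c, α, α', hne, hinf⟩ := hcase
    rw [InC_iff] at hP
    obtain ⟨h1, h2, h3, h4⟩ := hP
    obtain ⟨H, hG, hH1, hH2, hH3⟩ := hext c (hd c ν)
      (fun y => f y = c ∧ cm P (gi α) y = c ∧ cm P (gi α') y = c) (hadmν c)
      (hνf c) (fun y hy => hy.1) hinf
    refine ⟨c, H, hG, fun l hl hsol => ?_⟩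
    have hs := h.success j ν hν c _ _ _ _ (h4 α c) (h4 α' c) (fun n hn => fx_ne hn hne) H hH1
      (fun i hi hi2 => (hH2 i hi hi2).2) (fun k hk => (ha _).1 (hH3 k hk)) l (by rw [hr]; exact hl)
    apply hs
    have e : (fun n => ∃ k s, Vs s (eI j) l (rs H k) n) = Op (V l) H := by
      funext n
      rw [Vs_iff he]
      unfold Op
      apply propext
      constructor
      · rintro ⟨k, _, hk⟩
        exact ⟨k, hk⟩
      · rintro ⟨k, hk⟩
        exact ⟨k, hl, hk⟩
    rw [e]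
    exact hsol
  · have hcov : ∀ P, InC S (B j) j ν P → ∃ N, ∀ y, Z N y → ¬ Ac (f y) P y := by
      intro P hP
      have hfin : ∀ t : Bool × (Bool × Bool) × (Bool × Bool), ∃ N, col t.1 t.2.1 ≠ col t.1 t.2.2 →
          ∀ y, Z N y → ¬ (f y = t.1 ∧ cm P (gi t.2.1) y = t.1 ∧ cm P (gi t.2.2) y = t.1) := by
        rintro ⟨c, α, α'⟩
        by_cases hne : col c α ≠ col c α'
        · by_contra hno
          apply hcase
          refine ⟨P, hP, c, α, α', hne, fun N => ?_⟩
          by_contra hN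
          apply hno
          refine ⟨N, fun _ y hy hy2 => hN ⟨y, hy, hy2⟩⟩
        · exact ⟨0, fun hh => absurd hh hne⟩
      choose M hM using hfin
      refine ⟨Finset.univ.sup M, fun y hy hac => ?_⟩
      obtain ⟨α, α', a1, a2, a3⟩ := hac
      refine hM (f y, α, α') a1 y (hZd _ _ y ?_ hy) ⟨rfl, a2, a3⟩
      exact Finset.le_sup (f := M) (Finset.mem_univ _)
    obtain ⟨N, hN⟩ := h.exc j ν hν f Z hZ hcov
    obtain ⟨c, H, hH, hG⟩ := hexc N hN
    refine ⟨c, H, hG, fun l hl => ?_⟩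
    apply h.no_ce c
    unfold Op
    refine RE.ex (p := fun (n : ℕ) (k : ℕ) => V l (rs H k, n)) ?_
    have h1 : Computable fun x : ℕ × ℕ => rs H x.2 := (c_rs hH).comp Computable.snd
    exact RE.comp (hV l hl) (by fun_prop)

end

end Pool.Agent.helper643_RW
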